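import Mathlib

set_option autoImplicit false

namespace Pool.Agent.H8.Count4

open Finset

/-- Quadruples of positive integers with product at most `M`. -/
def T (M : ℕ) : Finset (ℕ × ℕ × ℕ × ℕ) :=
  (Icc 1 M ×ˢ Icc 1 M ×ˢ Icc 1 M ×ˢ Icc 1 M).filter
    (fun q => q.1 * (q.2.1 * q.2.2.1 * q.2.2.2) ≤ M)

theorem card_T_le (M : ℕ) : ((T M).card : ℝ) ≤ M * (1 + Real.log M) ^ 3 := by
  classical
  have h1 : (T M).card ≤ ∑ x ∈ Icc 1 M, ∑ y ∈ Icc 1 M, ∑ z ∈ Icc 1 M, M / (x * y * z) := by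
    have : T M ⊆ ((Icc 1 M ×ˢ Icc 1 M ×ˢ Icc 1 M).sigma
        (fun t => Icc 1 (M / (t.1 * t.2.1 * t.2.2)))).image
        (fun s => (s.2, s.1)) := by
      intro q hq
      simp only [T, mem_filter, mem_product, mem_Icc] at hq
      simp only [mem_image, mem_sigma, mem_product, mem_Icc, Sigma.exists]
      refine ⟨q.2, q.1, ⟨hq.1.2, hq.1.1.1, ?_⟩, rfl⟩
      rw [Nat.le_div_iff_mul_le]
      · exact hq.2
      · have := hq.1.2
        have h1 : 0 < q.2.1 := by omega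
        have h2 : 0 < q.2.2.1 := by omega
        have h3 : 0 < q.2.2.2 := by omega
        positivity
    calc (T M).card ≤ _ := card_le_card this
      _ ≤ _ := card_image_le
      _ = ∑ x ∈ Icc 1 M, ∑ y ∈ Icc 1 M, ∑ z ∈ Icc 1 M, M / (x * y * z) := by
        rw [card_sigma, sum_product]
        apply sum_congr rfl
        intro x _
        rw [sum_product]
        simp
  have h2 : (((∑ x ∈ Icc 1 M, ∑ y ∈ Icc 1 M, ∑ z ∈ Icc 1 M, M / (x * y * z) : ℕ)) : ℝ) ≤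
      M * (∑ x ∈ Icc 1 M, (x : ℝ)⁻¹) ^ 3 := by
    push_cast
    have h3 : (M : ℝ) * (∑ x ∈ Icc 1 M, (x : ℝ)⁻¹) ^ 3 =
        ∑ x ∈ Icc 1 M, ∑ y ∈ Icc 1 M, ∑ z ∈ Icc 1 M, (M : ℝ) * ((x : ℝ)⁻¹ * (y : ℝ)⁻¹ * (z : ℝ)⁻¹) := by
      rw [pow_succ, pow_succ, pow_one]
      simp only [Finset.mul_sum, Finset.sum_mul]
      apply sum_congr rfl
      intro x _
      rw [Finset.sum_comm]
      apply sum_congr rfl
      intro y _
      apply sum_congr rfl
      intro z _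
      ring
    rw [h3]
    apply sum_le_sum; intro x _
    apply sum_le_sum; intro y _
    apply sum_le_sum; intro z _
    refine le_trans Nat.cast_div_le ?_
    push_cast
    rw [div_eq_mul_inv, mul_inv, mul_inv]
  have h4 : (∑ x ∈ Icc 1 M, (x : ℝ)⁻¹) ≤ 1 + Real.log M := by
    have := harmonic_le_one_add_log M
    rw [harmonic_eq_sum_Icc] at this
    push_cast at this
    exact this
  have h5 : (0 : ℝ) ≤ ∑ x ∈ Icc 1 M, (x : ℝ)⁻¹ := sum_nonneg (fun _ _ => by positivity)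
  calc ((T M).card : ℝ) ≤ ((∑ x ∈ Icc 1 M, ∑ y ∈ Icc 1 M, ∑ z ∈ Icc 1 M, M / (x * y * z) : ℕ) : ℝ) := by
        exact_mod_cast h1
    _ ≤ _ := h2
    _ ≤ _ := by gcongr

end Pool.Agent.H8.Count4
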