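import Mathlib

set_option autoImplicit false

namespace Pool.Agent.H8.Markoff

/-- Sorting three integers, keeping the symmetric quantities. -/
theorem sort3 (X Y Z : ℤ) : ∃ x y z : ℤ, x ≤ y ∧ y ≤ z ∧ x + y + z = X + Y + Z ∧
    x * y * z = X * Y * Z ∧ x ^ 2 + y ^ 2 + z ^ 2 = X ^ 2 + Y ^ 2 + Z ^ 2 ∧
    (0 ≤ X → 0 ≤ Y → 0 ≤ Z → 0 ≤ x) := by
  rcases le_total X Y with h1 | h1 <;> rcases le_total Y Z with h2 | h2 <;>
    rcases le_total X Z with h3 | h3
  · exact ⟨X, Y, Z, h1, h2, by ring, by ring, by ring, fun h _ _ => h⟩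
  · exact ⟨X, Y, Z, h1, h2, by ring, by ring, by ring, fun h _ _ => h⟩
  · exact ⟨X, Z, Y, h3, h2, by ring, by ring, by ring, fun h _ _ => h⟩
  · exact ⟨Z, X, Y, h3, h1, by ring, by ring, by ring, fun _ _ h => h⟩
  · exact ⟨Y, X, Z, h1, h3, by ring, by ring, by ring, fun _ h _ => h⟩
  · exact ⟨Y, Z, X, h2, h3, by ring, by ring, by ring, fun _ h _ => h⟩
  · exact ⟨Z, Y, X, h2, h1, by ring, by ring, by ring, fun _ _ h => h⟩
  · exact ⟨Z, Y, X, h2, h1, by ring, by ring, by ring, fun _ _ h => h⟩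

/-- Passing to nonnegative unknowns. -/
theorem to_nonneg (a b x y z : ℤ) (h : x ^ 2 + y ^ 2 + z ^ 2 - a * x * y * z = b) :
    ∃ X Y Z : ℤ, 0 ≤ X ∧ 0 ≤ Y ∧ 0 ≤ Z ∧
      (X ^ 2 + Y ^ 2 + Z ^ 2 + |a| * (X * Y * Z) = b ∨
        X ^ 2 + Y ^ 2 + Z ^ 2 - |a| * (X * Y * Z) = b) := by
  refine ⟨|x|, |y|, |z|, abs_nonneg _, abs_nonneg _, abs_nonneg _, ?_⟩
  have h2 : |a| * (|x| * |y| * |z|) = |a * x * y * z| := by
    simp only [abs_mul]; ring
  rw [h2, sq_abs, sq_abs, sq_abs]
  rcases abs_choice (a * x * y * z) with h3 | h3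
  · right; rw [h3]; linarith
  · left; rw [h3]; linarith

/-- Vieta descent for nonnegative solutions. -/
theorem descent (A b : ℤ) (hA : 0 ≤ A) : ∀ n : ℕ, ∀ X Y Z : ℤ, 0 ≤ X → 0 ≤ Y → 0 ≤ Z →
    X + Y + Z ≤ n → X ^ 2 + Y ^ 2 + Z ^ 2 - A * (X * Y * Z) = b →
    (∃ x y z : ℤ, 0 ≤ x ∧ x ≤ y ∧ y ≤ z ∧ x ^ 2 + y ^ 2 + z ^ 2 + A * (x * y * z) = b) ∨
    (∃ x y z : ℤ, 0 ≤ x ∧ x ≤ y ∧ y ≤ z ∧ 2 * z ≤ A * (x * y) ∧
      x ^ 2 + y ^ 2 + z ^ 2 - A * (x * y * z) = b) := by
  intro n
  induction n with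
  | zero =>
    intro X Y Z hX hY hZ hs h
    have h1 : X = 0 := by push_cast at hs; linarith
    have h2 : Y = 0 := by push_cast at hs; linarith
    have h3 : Z = 0 := by push_cast at hs; linarith
    subst h1 h2 h3
    left
    exact ⟨0, 0, 0, le_refl _, le_refl _, le_refl _, by linarith⟩
  | succ n ih =>
    intro X Y Z hX hY hZ hs h
    obtain ⟨x, y, z, hxy, hyz, hsum, hprod, hsq, hx⟩ := sort3 X Y Z
    have hx := hx hX hY hZ
    rw [← hprod, ← hsq] at h
    by_cases hc : 2 * z ≤ A * (x * y)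
    · right; exact ⟨x, y, z, hx, hxy, hyz, hc, h⟩
    · push Not at hc
      have hxy0 : 0 ≤ A * (x * y) := mul_nonneg hA (mul_nonneg hx (by linarith))
      by_cases hz : 0 ≤ A * (x * y) - z
      · -- conjugate is nonnegative and smaller
        refine ih x y (A * (x * y) - z) hx (by linarith) hz ?_ ?_
        · push_cast at hs; linarith
        · rw [← h]; ring
      · push Not at hz
        left
        obtain ⟨x', y', z', hxy', hyz', hsum', hprod', hsq', hx'⟩ := sort3 x y (z - A * (x * y))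
        refine ⟨x', y', z', hx' hx (by linarith) (by linarith), hxy', hyz', ?_⟩
        rw [hprod', hsq', ← h]; ring

/-- Complete reduction: every solvable pair has a reduced solution. -/
theorem reduction (a b : ℤ) (h : ∃ x y z : ℤ, x ^ 2 + y ^ 2 + z ^ 2 - a * x * y * z = b) :
    (∃ x y z : ℤ, 0 ≤ x ∧ x ≤ y ∧ y ≤ z ∧ x ^ 2 + y ^ 2 + z ^ 2 + |a| * (x * y * z) = b) ∨
    (b < 0 ∧ ∃ x y z : ℤ, 1 ≤ x ∧ x ≤ y ∧ y ≤ z ∧ 2 * z ≤ |a| * (x * y) ∧
      x ^ 2 + y ^ 2 + z ^ 2 - |a| * (x * y * z) = b) := by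
  obtain ⟨x0, y0, z0, h⟩ := h
  obtain ⟨X, Y, Z, hX, hY, hZ, h⟩ := to_nonneg a b x0 y0 z0 h
  rcases h with h | h
  · left
    obtain ⟨x, y, z, hxy, hyz, hsum, hprod, hsq, hx⟩ := sort3 X Y Z
    exact ⟨x, y, z, hx hX hY hZ, hxy, hyz, by rw [hprod, hsq, h]⟩
  · rcases descent |a| b (abs_nonneg a) (X + Y + Z).toNat X Y Z hX hY hZ
      (by rw [Int.toNat_of_nonneg (by linarith)]) h with h | ⟨x, y, z, hx, hxy, hyz, hz, h⟩
    · left; exact h
    · by_cases hb : b < 0
      · right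
        refine ⟨hb, x, y, z, ?_, hxy, hyz, hz, h⟩
        by_contra hcon
        have hx0 : x = 0 := by omega
        subst hx0
        nlinarith [sq_nonneg y, sq_nonneg z]
      · left
        push Not at hb
        -- b ≤ x^2 + 2 y^2 - |a| x y^2
        have hA := abs_nonneg a
        have hAx : 0 ≤ |a| * x := mul_nonneg hA hx
        have key : b ≤ x ^ 2 + 2 * y ^ 2 - (|a| * x) * y ^ 2 := by
          have : (z - y) * (z + y - |a| * (x * y)) ≤ 0 :=
            mul_nonpos_of_nonneg_of_nonpos (by linarith) (by linarith)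
          nlinarith
        by_cases h3 : 3 ≤ |a| * x
        · have h4 : x ^ 2 ≤ y ^ 2 := by nlinarith
          have h5 : 0 ≤ y ^ 2 := sq_nonneg y
          have h6 : b ≤ x ^ 2 - y ^ 2 := by nlinarith
          have h7 : b = 0 := by linarith
          exact ⟨0, 0, 0, le_refl _, le_refl _, le_refl _, by rw [h7]; ring⟩
        · push Not at h3
          have hcases : |a| * x = 0 ∨ |a| * x = 1 ∨ |a| * x = 2 := by omega
          rcases hcases with h0 | h1 | h2
          · have : |a| * (x * y) = 0 := by rw [← mul_assoc, h0, zero_mul]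
            have hz0 : z = 0 := by linarith
            have hy0 : y = 0 := by linarith
            have hx0 : x = 0 := by linarith
            subst hz0 hy0 hx0
            exact ⟨0, 0, 0, le_refl _, le_refl _, le_refl _, by rw [← h]; ring⟩
          · have : |a| * (x * y) = y := by rw [← mul_assoc, h1, one_mul]
            have hz0 : z = 0 := by linarith
            have hy0 : y = 0 := by linarith
            have hx0 : x = 0 := by linarith
            subst hz0 hy0 hx0
            exact ⟨0, 0, 0, le_refl _, le_refl _, le_refl _, by rw [← h]; ring⟩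
          · have h8 : |a| * (x * y) = 2 * y := by rw [← mul_assoc, h2]
            have hz0 : z = y := by linarith
            subst hz0
            refine ⟨0, 0, x, le_refl _, le_refl _, hx, ?_⟩
            have h9 : |a| * (x * z * z) = 2 * z * z := by
              calc |a| * (x * z * z) = |a| * (x * z) * z := by ring
                _ = 2 * z * z := by rw [h8]
            rw [h9] at h
            rw [← h]; ring

end Pool.Agent.H8.Markoff
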