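import Mathlib
import Pool.Agent.H8.MarkoffBasic
import Pool.Agent.H8.Count4

set_option autoImplicit false

namespace Pool.Agent.H8.AlmostAll

open Finset Pool.Agent.H8.Markoff Pool.Agent.H8.Count4

/-- Solvability of `x ^ 2 + y ^ 2 + z ^ 2 - a x y z = b` in integers. -/
def Solvable (a b : ℤ) : Prop :=
  ∃ x y z : ℤ, x ^ 2 + y ^ 2 + z ^ 2 - a * x * y * z = b

/-- `b` is a sum of two integer squares. -/
def IsSumTwoSq (b : ℤ) : Prop := ∃ u v : ℤ, b = u ^ 2 + v ^ 2

theorem solvable_of_isSumTwoSq (a b : ℤ) (h : IsSumTwoSq b) : Solvable a b := by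
  obtain ⟨u, v, h⟩ := h
  exact ⟨0, u, v, by rw [h]; ring⟩

/-- Elementary inequality used in the case of negative `b`. -/
theorem four_mul_ge (P x y z : ℤ) (hx : 1 ≤ x) (hxy : x ≤ y) (hyz : y ≤ z) (h2 : 2 * z ≤ P)
    (h4 : 4 * y ≤ P) : P * z ≤ 4 * (P * z - x ^ 2 - y ^ 2 - z ^ 2) := by
  have hx2 : x ^ 2 ≤ y ^ 2 := by nlinarith
  rcases le_total (2 * y) z with h | h
  · nlinarith
  · have : (z - y) * (z - 2 * y) ≤ 0 := mul_nonpos_of_nonneg_of_nonpos (by linarith) (by linarith)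
    nlinarith

/-- The candidate exceptional pairs. -/
noncomputable def cand (N : ℕ) : Finset (ℤ × ℤ) :=
  ((T N).image (fun q => ((q.1 : ℤ), (q.2.1 : ℤ) ^ 2 + (q.2.2.1 : ℤ) ^ 2 + (q.2.2.2 : ℤ) ^ 2
      + q.1 * (q.2.1 * q.2.2.1 * q.2.2.2))) ∪
   (T N).image (fun q => (-(q.1 : ℤ), (q.2.1 : ℤ) ^ 2 + (q.2.2.1 : ℤ) ^ 2 + (q.2.2.2 : ℤ) ^ 2
      + q.1 * (q.2.1 * q.2.2.1 * q.2.2.2)))) ∪
  (((T (4 * N)).image (fun q => ((q.1 : ℤ), (q.2.1 : ℤ) ^ 2 + (q.2.2.1 : ℤ) ^ 2
      + (q.2.2.2 : ℤ) ^ 2 - q.1 * (q.2.1 * q.2.2.1 * q.2.2.2))) ∪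
   (T (4 * N)).image (fun q => (-(q.1 : ℤ), (q.2.1 : ℤ) ^ 2 + (q.2.2.1 : ℤ) ^ 2
      + (q.2.2.2 : ℤ) ^ 2 - q.1 * (q.2.1 * q.2.2.1 * q.2.2.2)))) ∪
   (({0, 1, -1, 3, -3} : Finset ℤ) ×ˢ Icc (-(N : ℤ)) N))

theorem card_cand_le (N : ℕ) :
    (cand N).card ≤ 2 * (T N).card + 2 * (T (4 * N)).card + 5 * (2 * N + 1) := by
  unfold cand
  refine le_trans (card_union_le _ _) ?_
  have h1 := (card_union_le ((T N).image (fun q => ((q.1 : ℤ), (q.2.1 : ℤ) ^ 2
      + (q.2.2.1 : ℤ) ^ 2 + (q.2.2.2 : ℤ) ^ 2 + q.1 * (q.2.1 * q.2.2.1 * q.2.2.2))))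
      ((T N).image (fun q => (-(q.1 : ℤ), (q.2.1 : ℤ) ^ 2 + (q.2.2.1 : ℤ) ^ 2 + (q.2.2.2 : ℤ) ^ 2
      + q.1 * (q.2.1 * q.2.2.1 * q.2.2.2)))))
  have h2 : (T N).card + (T N).card = 2 * (T N).card := by ring
  have h1' := le_trans h1 (le_trans (add_le_add card_image_le card_image_le) h2.le)
  refine le_trans (add_le_add h1' (card_union_le _ _)) ?_
  have h3 := (card_union_le ((T (4 * N)).image (fun q => ((q.1 : ℤ), (q.2.1 : ℤ) ^ 2
      + (q.2.2.1 : ℤ) ^ 2 + (q.2.2.2 : ℤ) ^ 2 - q.1 * (q.2.1 * q.2.2.1 * q.2.2.2))))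
      ((T (4 * N)).image (fun q => (-(q.1 : ℤ), (q.2.1 : ℤ) ^ 2 + (q.2.2.1 : ℤ) ^ 2
      + (q.2.2.2 : ℤ) ^ 2 - q.1 * (q.2.1 * q.2.2.1 * q.2.2.2)))))
  have h4 : (T (4 * N)).card + (T (4 * N)).card = 2 * (T (4 * N)).card := by ring
  have h3' := le_trans h3 (le_trans (add_le_add card_image_le card_image_le) h4.le)
  have h5 : (({0, 1, -1, 3, -3} : Finset ℤ) ×ˢ Icc (-(N : ℤ)) N).card = 5 * (2 * N + 1) := by
    rw [card_product, Int.card_Icc]
    have : ((N : ℤ) + 1 - -(N : ℤ)).toNat = 2 * N + 1 := by omega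
    rw [this]
    rfl
  rw [h5]
  omega

theorem exceptional_mem_cand (N : ℕ) (a b : ℤ) (ha : |a| ≤ N) (hb : |b| ≤ N)
    (hS : Solvable a b) (hT : ¬ IsSumTwoSq b) : (a, b) ∈ cand N := by
  have hbI : b ∈ Icc (-(N : ℤ)) N := by
    rw [mem_Icc]; exact abs_le.1 hb
  have hA := abs_nonneg a
  by_cases hsmall : a = 0 ∨ a = 1 ∨ a = -1 ∨ a = 3 ∨ a = -3
  · apply mem_union_right
    apply mem_union_right
    rw [mem_product]
    refine ⟨?_, hbI⟩
    simp only [mem_insert, mem_singleton]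
    exact hsmall
  · have ha0 : a ≠ 0 := fun h => hsmall (Or.inl h)
    have hA1 : 1 ≤ |a| := Int.one_le_abs ha0
    have ha3 : |a| ≠ 1 ∧ |a| ≠ 3 := by
      constructor
      · intro h
        rcases abs_eq (by norm_num : (0:ℤ) ≤ 1) |>.1 h with h | h
        · exact hsmall (Or.inr (Or.inl h))
        · exact hsmall (Or.inr (Or.inr (Or.inl h)))
      · intro h
        rcases abs_eq (by norm_num : (0:ℤ) ≤ 3) |>.1 h with h | h
        · exact hsmall (Or.inr (Or.inr (Or.inr (Or.inl h))))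
        · exact hsmall (Or.inr (Or.inr (Or.inr (Or.inr h))))
    have hcast : ((a.natAbs : ℕ) : ℤ) = |a| := Int.natCast_natAbs a
    have hsign : a = (a.natAbs : ℤ) ∨ a = -(a.natAbs : ℤ) := by
      rw [hcast]
      rcases abs_choice a with h | h
      · left; exact h.symm
      · right; rw [h]; ring
    rcases reduction a b hS with ⟨x, y, z, hx, hxy, hyz, h⟩ | ⟨hbneg, x, y, z, hx, hxy, hyz, hz, h⟩
    · have hx1 : 1 ≤ x := by
        by_contra hcon
        have hx0 : x = 0 := by omega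
        apply hT
        refine ⟨y, z, ?_⟩
        rw [← h, hx0]; ring
      have hy1 : 1 ≤ y := le_trans hx1 hxy
      have hz1 : 1 ≤ z := le_trans hy1 hyz
      have hxyz : 1 ≤ x * y * z := by
        have : 0 < x * y * z := by positivity
        omega
      have hle : |a| * (x * y * z) ≤ N := by
        have := le_trans (le_abs_self b) hb
        nlinarith [sq_nonneg x, sq_nonneg y, sq_nonneg z]
      have hxN : x ≤ N := by nlinarith [mul_pos (by omega : 0 < y) (by omega : 0 < z)]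
      have hyN : y ≤ N := by nlinarith [mul_pos (by omega : 0 < x) (by omega : 0 < z)]
      have hzN : z ≤ N := by nlinarith [mul_pos (by omega : 0 < x) (by omega : 0 < y)]
      have hq : (a.natAbs, x.toNat, y.toNat, z.toNat) ∈ T N := by
        simp only [T, mem_filter, mem_product, mem_Icc]
        refine ⟨⟨⟨by omega, by omega⟩, ⟨by omega, by omega⟩, ⟨by omega, by omega⟩,
          ⟨by omega, by omega⟩⟩, ?_⟩
        zify
        rw [Int.toNat_of_nonneg (by omega), Int.toNat_of_nonneg (by omega),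
          Int.toNat_of_nonneg (by omega)]
        exact hle
      apply mem_union_left
      rcases hsign with hs | hs
      · apply mem_union_left
        rw [mem_image]
        refine ⟨_, hq, ?_⟩
        simp only [Prod.mk.injEq]
        refine ⟨hs.symm, ?_⟩
        rw [Int.toNat_of_nonneg (by omega), Int.toNat_of_nonneg (by omega),
          Int.toNat_of_nonneg (by omega), hcast, ← h]
      · apply mem_union_right
        rw [mem_image]
        refine ⟨_, hq, ?_⟩
        simp only [Prod.mk.injEq]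
        refine ⟨hs.symm, ?_⟩
        rw [Int.toNat_of_nonneg (by omega), Int.toNat_of_nonneg (by omega),
          Int.toNat_of_nonneg (by omega), hcast, ← h]
    · have hy1 : 1 ≤ y := le_trans hx hxy
      have hz1 : 1 ≤ z := le_trans hy1 hyz
      -- |a| x ≥ 4
      have hax3 : 3 ≤ |a| * x := by
        by_contra hcon
        push Not at hcon
        have h4 : |a| * x ≤ 2 := by omega
        have h5 : |a| * (x * y) ≤ 2 * y := by nlinarith
        have h6 : z = y := by linarith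
        have h7 : |a| * (x * y) = 2 * y := by linarith
        subst h6
        have h8 : |a| * (x * z * z) = 2 * z * z := by
          calc |a| * (x * z * z) = |a| * (x * z) * z := by ring
            _ = 2 * z * z := by rw [h7]
        rw [h8] at h
        nlinarith [sq_nonneg x]
      have hax4 : 4 ≤ |a| * x := by
        by_contra hcon
        have h3 : |a| * x = 3 := by omega
        have hdvd : |a| ∣ 3 := ⟨x, h3.symm⟩
        have hle3 : |a| ≤ 3 := Int.le_of_dvd (by norm_num) hdvd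
        have h12 : |a| = 2 := by omega
        rw [h12] at h3
        omega
      have h4y : 4 * y ≤ |a| * (x * y) := by nlinarith
      have hkey := four_mul_ge (|a| * (x * y)) x y z hx hxy hyz hz h4y
      have hle : |a| * (x * y * z) ≤ 4 * N := by
        have h1 : |a| * (x * y) * z = |a| * (x * y * z) := by ring
        have h2 := le_trans (neg_le_abs b) hb
        rw [h1] at hkey
        linarith
      have hxyz : 1 ≤ x * y * z := by
        have : 0 < x * y * z := by positivity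
        omega
      have hxN : x ≤ 4 * N := by nlinarith [mul_pos (by omega : 0 < y) (by omega : 0 < z)]
      have hyN : y ≤ 4 * N := by nlinarith [mul_pos (by omega : 0 < x) (by omega : 0 < z)]
      have hzN : z ≤ 4 * N := by nlinarith [mul_pos (by omega : 0 < x) (by omega : 0 < y)]
      have hq : (a.natAbs, x.toNat, y.toNat, z.toNat) ∈ T (4 * N) := by
        simp only [T, mem_filter, mem_product, mem_Icc]
        refine ⟨⟨⟨by omega, by omega⟩, ⟨by omega, by omega⟩, ⟨by omega, by omega⟩,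
          ⟨by omega, by omega⟩⟩, ?_⟩
        zify
        rw [Int.toNat_of_nonneg (by omega), Int.toNat_of_nonneg (by omega),
          Int.toNat_of_nonneg (by omega)]
        exact hle
      apply mem_union_right
      apply mem_union_left
      rcases hsign with hs | hs
      · apply mem_union_left
        rw [mem_image]
        refine ⟨_, hq, ?_⟩
        simp only [Prod.mk.injEq]
        refine ⟨hs.symm, ?_⟩
        rw [Int.toNat_of_nonneg (by omega), Int.toNat_of_nonneg (by omega),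
          Int.toNat_of_nonneg (by omega), hcast, ← h]
      · apply mem_union_right
        rw [mem_image]
        refine ⟨_, hq, ?_⟩
        simp only [Prod.mk.injEq]
        refine ⟨hs.symm, ?_⟩
        rw [Int.toNat_of_nonneg (by omega), Int.toNat_of_nonneg (by omega),
          Int.toNat_of_nonneg (by omega), hcast, ← h]

open Classical in
theorem main (N : ℕ) (hN : 1 ≤ N) :
    ((((Icc (-(N : ℤ)) N) ×ˢ (Icc (-(N : ℤ)) N)).filter
      (fun p : ℤ × ℤ => ¬ (Solvable p.1 p.2 ↔ IsSumTwoSq p.2))).card : ℝ) ≤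
      126 * N * (1 + Real.log N) ^ 3 := by
  have hsub : ((Icc (-(N : ℤ)) N) ×ˢ (Icc (-(N : ℤ)) N)).filter
      (fun p : ℤ × ℤ => ¬ (Solvable p.1 p.2 ↔ IsSumTwoSq p.2)) ⊆ cand N := by
    intro p hp
    rw [mem_filter, mem_product, mem_Icc, mem_Icc] at hp
    obtain ⟨⟨ha, hb⟩, hne⟩ := hp
    have hnot : ¬ IsSumTwoSq p.2 := fun h => hne ⟨fun _ => h, fun _ => solvable_of_isSumTwoSq _ _ h⟩
    have hS : Solvable p.1 p.2 := by
      by_contra hcon
      exact hne ⟨fun h => absurd h hcon, fun h => absurd h hnot⟩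
    exact exceptional_mem_cand N p.1 p.2 (abs_le.2 ha) (abs_le.2 hb) hS hnot
  have h1 := le_trans (card_le_card hsub) (card_cand_le N)
  have hNpos : (0 : ℝ) < N := by exact_mod_cast hN
  have hN1 : (1 : ℝ) ≤ N := by exact_mod_cast hN
  have hlog : 0 ≤ Real.log N := Real.log_nonneg hN1
  have h2 := card_T_le N
  have h3 := card_T_le (4 * N)
  have h4 : Real.log ((4 * N : ℕ) : ℝ) = Real.log 4 + Real.log N := by
    push_cast
    rw [Real.log_mul (by norm_num) (by positivity)]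
  have hlog4 : Real.log 4 ≤ 1.3866 := by
    have : Real.log 4 = 2 * Real.log 2 := by
      rw [show (4 : ℝ) = 2 ^ 2 by norm_num, Real.log_pow]; norm_num
    rw [this]
    have := Real.log_two_lt_d9
    linarith
  have h5 : (1 + Real.log ((4 * N : ℕ) : ℝ)) ^ 3 ≤ 13.6 * (1 + Real.log N) ^ 3 := by
    have h6 : 1 + Real.log ((4 * N : ℕ) : ℝ) ≤ 2.3866 * (1 + Real.log N) := by
      rw [h4]; nlinarith
    have h7 : 0 ≤ 1 + Real.log ((4 * N : ℕ) : ℝ) := by
      rw [h4]; have : 0 ≤ Real.log 4 := Real.log_nonneg (by norm_num)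
      linarith
    calc (1 + Real.log ((4 * N : ℕ) : ℝ)) ^ 3 ≤ (2.3866 * (1 + Real.log N)) ^ 3 := by gcongr
      _ = 2.3866 ^ 3 * (1 + Real.log N) ^ 3 := by ring
      _ ≤ 13.6 * (1 + Real.log N) ^ 3 := by
        have : (0:ℝ) ≤ (1 + Real.log N) ^ 3 := by positivity
        nlinarith
  have h8 : (1 : ℝ) ≤ (1 + Real.log N) ^ 3 := one_le_pow₀ (by linarith)
  have h1' : ((((Icc (-(N : ℤ)) N) ×ˢ (Icc (-(N : ℤ)) N)).filter
      (fun p : ℤ × ℤ => ¬ (Solvable p.1 p.2 ↔ IsSumTwoSq p.2))).card : ℝ) ≤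
      2 * (T N).card + 2 * (T (4 * N)).card + 5 * (2 * N + 1) := by exact_mod_cast h1
  push_cast at h3
  push_cast at h5
  have h9 : (N : ℝ) ≤ N * (1 + Real.log N) ^ 3 := by nlinarith
  have h10 : 4 * (N : ℝ) * (1 + Real.log (4 * N)) ^ 3 ≤ 4 * N * (13.6 * (1 + Real.log N) ^ 3) := by
    gcongr
  nlinarith

end Pool.Agent.H8.AlmostAll
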