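import Mathlib
import Pool.Agent.H8.MarkoffBasic

set_option autoImplicit false

namespace Pool.Agent.H8.Criterion

open Pool.Agent.H8.Markoff

/-- A solution in the third unknown exists as soon as the discriminant is a square. -/
theorem of_isSquare (a b x y : ℤ)
    (h : IsSquare (a ^ 2 * x ^ 2 * y ^ 2 + 4 * (b - x ^ 2 - y ^ 2))) :
    ∃ z : ℤ, x ^ 2 + y ^ 2 + z ^ 2 - a * x * y * z = b := by
  obtain ⟨w, hw⟩ := h
  -- w and a x y have the same parity
  have hpar : Even (a * x * y + w) := by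
    have h1 : Even ((a * x * y + w) * (a * x * y - w)) := by
      have : (a * x * y + w) * (a * x * y - w) = 2 * (-2 * (b - x ^ 2 - y ^ 2)) := by
        nlinarith
      rw [this]; exact even_two_mul _
    rcases Int.even_mul.1 h1 with h2 | h2
    · exact h2
    · have : a * x * y + w = (a * x * y - w) + 2 * w := by ring
      rw [this]
      exact h2.add (even_two_mul w)
  obtain ⟨z, hz⟩ := hpar
  refine ⟨z, ?_⟩
  have hw' : w = 2 * z - a * x * y := by linarith
  rw [hw'] at hw
  nlinarith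

theorem main (a b : ℤ) :
    (∃ x y z : ℤ, x ^ 2 + y ^ 2 + z ^ 2 - a * x * y * z = b) ↔
      ∃ x y : ℤ, 0 ≤ x ∧ x ≤ y ∧ y ^ 2 ≤ |b| + 9 ∧
        ((0 ≤ b ∧ x ^ 2 + (|a| * x + 2) * y ^ 2 ≤ b) ∨
          (b < 0 ∧ 3 ≤ |a| * x ∧ (|a| * x - 2) * y ^ 2 ≤ x ^ 2 - b)) ∧
        IsSquare (a ^ 2 * x ^ 2 * y ^ 2 + 4 * (b - x ^ 2 - y ^ 2)) := by
  constructor
  · intro h
    have hA := abs_nonneg a
    have ha2 : a ^ 2 = |a| ^ 2 := (sq_abs a).symm
    rcases reduction a b h with ⟨x, y, z, hx, hxy, hyz, h⟩ | ⟨hb, x, y, z, hx, hxy, hyz, hz, h⟩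
    · have hy : 0 ≤ y := le_trans hx hxy
      have hzz : y ^ 2 ≤ z ^ 2 := by nlinarith
      have hAx : 0 ≤ |a| * x := mul_nonneg hA hx
      have hAxy : 0 ≤ |a| * x * y := mul_nonneg hAx hy
      have hprod : (|a| * x) * y ^ 2 ≤ |a| * (x * y * z) := by nlinarith
      have hb : 0 ≤ b := by nlinarith [sq_nonneg x, sq_nonneg y, sq_nonneg z]
      refine ⟨x, y, hx, hxy, ?_, Or.inl ⟨hb, by nlinarith⟩, ?_⟩
      · rw [abs_of_nonneg hb]
        nlinarith [sq_nonneg x, sq_nonneg y, sq_nonneg z]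
      · refine ⟨2 * z + |a| * x * y, ?_⟩
        rw [ha2, ← h]; ring
    · have hy : 1 ≤ y := le_trans hx hxy
      have hAx : 0 ≤ |a| * x := mul_nonneg hA (by linarith)
      have key : (|a| * x - 2) * y ^ 2 ≤ x ^ 2 - b := by
        have : (z - y) * (z + y - |a| * (x * y)) ≤ 0 :=
          mul_nonpos_of_nonneg_of_nonpos (by linarith) (by linarith)
        nlinarith
      have h3 : 3 ≤ |a| * x := by
        by_contra hcon
        push Not at hcon
        -- 2 z ≤ |a| x y ≤ 2 y ≤ 2 z forces z = y and b = x ^ 2 + 2 y ^ 2 - 2 y ^ 2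
        have h4 : |a| * x ≤ 2 := by omega
        have h5 : |a| * (x * y) ≤ 2 * y := by nlinarith
        have h6 : z = y := by linarith
        have h7 : |a| * (x * y) = 2 * y := by linarith
        subst h6
        have h8 : |a| * (x * z * z) = 2 * z * z := by
          calc |a| * (x * z * z) = |a| * (x * z) * z := by ring
            _ = 2 * z * z := by rw [h7]
        rw [h8] at h
        nlinarith [sq_nonneg x]
      refine ⟨x, y, by linarith, hxy, ?_, Or.inr ⟨hb, h3, key⟩, ?_⟩
      · rw [abs_of_neg hb]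
        by_cases h4 : 4 ≤ |a| * x
        · nlinarith
        · have h5 : |a| * x = 3 := by omega
          have h6 : x ≤ 3 := by
            have : 0 < |a| := by
              rcases lt_or_eq_of_le hA with h7 | h7
              · exact h7
              · rw [← h7] at h5; omega
            nlinarith
          rw [h5] at key
          nlinarith
      · refine ⟨2 * z - |a| * x * y, ?_⟩
        rw [ha2, ← h]; ring
  · rintro ⟨x, y, -, -, -, -, hsq⟩
    obtain ⟨z, hz⟩ := of_isSquare a b x y hsq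
    exact ⟨x, y, z, hz⟩

end Pool.Agent.H8.Criterion
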