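import Mathlib

set_option autoImplicit false

namespace Pool.Agent.H8.MarkoffLocal

/-- Solvability of the Markoff-type equation in a commutative ring. -/
def SolR {R : Type*} [CommRing R] (a b : R) : Prop :=
  ∃ x y z : R, x ^ 2 + y ^ 2 + z ^ 2 - a * x * y * z = b

theorem SolR.map {R S : Type*} [CommRing R] [CommRing S] (f : R →+* S) {a b : R}
    (h : SolR a b) : SolR (f a) (f b) := by
  obtain ⟨x, y, z, h⟩ := h
  exact ⟨f x, f y, f z, by rw [← h]; simp⟩

/-- Hensel for monic quadratic polynomials. -/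
theorem quad_root {p : ℕ} [Fact p.Prime] (B C t0 : ℤ_[p])
    (h : ‖t0 ^ 2 + B * t0 + C‖ < ‖2 * t0 + B‖ ^ 2) :
    ∃ t : ℤ_[p], t ^ 2 + B * t + C = 0 := by
  set F : Polynomial ℤ_[p] := Polynomial.X ^ 2 + Polynomial.C B * Polynomial.X + Polynomial.C C
    with hF
  have h1 : F.aeval t0 = t0 ^ 2 + B * t0 + C := by simp [hF]
  have h2 : F.derivative.aeval t0 = 2 * t0 + B := by
    simp only [hF, Polynomial.derivative_add, Polynomial.derivative_X_pow,
      Polynomial.derivative_mul, Polynomial.derivative_C, Polynomial.derivative_X]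
    simp
  have := hensels_lemma (F := F) (a := t0) (by rw [h1, h2]; exact h)
  obtain ⟨t, ht, -⟩ := this
  refine ⟨t, ?_⟩
  simpa [hF] using ht

theorem norm_unit_of_not_dvd {p : ℕ} [Fact p.Prime] (n : ℤ) (h : ¬ (p : ℤ) ∣ n) :
    ‖(n : ℤ_[p])‖ = 1 := by
  rcases lt_or_eq_of_le (PadicInt.norm_le_one (n : ℤ_[p])) with h1 | h1
  · exact absurd ((PadicInt.norm_intCast_lt_one_iff).1 h1) h
  · exact h1

theorem norm_lt_of_dvd {p : ℕ} [Fact p.Prime] (n : ℤ) (h : (p : ℤ) ∣ n) :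
    ‖(n : ℤ_[p])‖ < 1 := PadicInt.norm_intCast_lt_one_iff.2 h

/-- Simple root version, for integers. -/
theorem quad_root_simple {p : ℕ} [Fact p.Prime] (B C t0 : ℤ) (h : (p : ℤ) ∣ t0 ^ 2 + B * t0 + C)
    (h' : ¬ (p : ℤ) ∣ 2 * t0 + B) : ∃ t : ℤ_[p], t ^ 2 + B * t + C = 0 := by
  apply quad_root (B : ℤ_[p]) C t0
  have h1 := norm_unit_of_not_dvd (p := p) _ h'
  have h2 := norm_lt_of_dvd (p := p) _ h
  push_cast at h1 h2
  rw [h1]
  simpa using h2

/-- `2`-adic square roots. -/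
theorem sqrt_two_adic (c : ℤ) (h : c % 8 = 1) : ∃ t : ℤ_[2], t ^ 2 = c := by
  have : ∃ t : ℤ_[2], t ^ 2 + 0 * t + (-(c : ℤ_[2])) = 0 := by
    apply quad_root 0 (-(c : ℤ_[2])) 1
    have h1 : ‖((1 - c : ℤ) : ℤ_[2])‖ ≤ ((2 : ℕ) : ℝ) ^ (-((3 : ℕ) : ℤ)) := by
      rw [PadicInt.norm_int_le_pow_iff_dvd]
      norm_num
      omega
    have h2 : ‖(2 : ℤ_[2])‖ = 1 / 2 := by
      have := PadicInt.norm_p (p := 2)
      norm_num at this ⊢
      exact this
    have h3 : (1 : ℤ_[2]) ^ 2 + 0 * 1 + (-(c : ℤ_[2])) = ((1 - c : ℤ) : ℤ_[2]) := by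
      push_cast; ring
    rw [h3]
    have h4 : (2 : ℤ_[2]) * 1 + 0 = 2 := by ring
    rw [h4, h2]
    refine lt_of_le_of_lt h1 ?_
    norm_num
  obtain ⟨t, ht⟩ := this
  refine ⟨t, ?_⟩
  linear_combination ht

theorem sol_scale {R : Type*} [CommRing R] (a b c : R) (h : SolR (c * a) b) :
    SolR a (c ^ 2 * b) := by
  obtain ⟨x, y, z, h⟩ := h
  refine ⟨c * x, c * y, c * z, ?_⟩
  rw [← h]; ring

/-- Odd `p` dividing `a`: always solvable. -/
theorem sol_odd_dvd {p : ℕ} [hp : Fact p.Prime] (hodd : p ≠ 2) (a b : ℤ) (ha : (p : ℤ) ∣ a) :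
    SolR (a : ℤ_[p]) b := by
  have h2 : ¬ (p : ℤ) ∣ 2 := by
    intro h
    have h3 : p ∣ 2 := by exact_mod_cast h
    exact hodd ((Nat.prime_dvd_prime_iff_eq hp.out Nat.prime_two).1 h3)
  by_cases hb : (p : ℤ) ∣ b
  · obtain ⟨y, z, hyz⟩ := ZMod.sq_add_sq p (-1)
    obtain ⟨y, rfl⟩ := ZMod.intCast_surjective y
    obtain ⟨z, rfl⟩ := ZMod.intCast_surjective z
    have h1 : (p : ℤ) ∣ y ^ 2 + z ^ 2 + 1 := by
      rw [← ZMod.intCast_zmod_eq_zero_iff_dvd]
      push_cast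
      rw [hyz]; ring
    obtain ⟨t, ht⟩ := quad_root_simple (p := p) (-(a * y * z)) (y ^ 2 + z ^ 2 - b) 1
      (by
        have : (1 : ℤ) ^ 2 + -(a * y * z) * 1 + (y ^ 2 + z ^ 2 - b) =
          (y ^ 2 + z ^ 2 + 1) - a * (y * z) - b := by ring
        rw [this]
        exact dvd_sub (dvd_sub h1 (Dvd.dvd.mul_right ha _)) hb)
      (by
        intro h
        apply h2
        have h3 : (2 : ℤ) = (2 * 1 + -(a * y * z)) + a * (y * z) := by ring
        rw [h3]
        exact dvd_add h (Dvd.dvd.mul_right ha _))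
    refine ⟨t, y, z, ?_⟩
    push_cast at ht
    linear_combination ht
  · obtain ⟨y, z, hyz⟩ := ZMod.sq_add_sq p (b : ZMod p)
    obtain ⟨y, rfl⟩ := ZMod.intCast_surjective y
    obtain ⟨z, rfl⟩ := ZMod.intCast_surjective z
    have h1 : (p : ℤ) ∣ y ^ 2 + z ^ 2 - b := by
      rw [← ZMod.intCast_zmod_eq_zero_iff_dvd]
      push_cast
      rw [hyz]; ring
    -- one of y, z is nonzero mod p
    have key : ∀ y z : ℤ, (p : ℤ) ∣ y ^ 2 + z ^ 2 - b → ¬ (p : ℤ) ∣ z → SolR (a : ℤ_[p]) b := by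
      intro y z h1 hz
      obtain ⟨t, ht⟩ := quad_root_simple (p := p) 0 (y ^ 2 - b) z
        (by
          have : z ^ 2 + 0 * z + (y ^ 2 - b) = y ^ 2 + z ^ 2 - b := by ring
          rw [this]; exact h1)
        (by
          intro h
          rw [add_zero] at h
          rcases (Nat.prime_iff_prime_int.1 hp.out).dvd_or_dvd h with h | h
          · exact h2 h
          · exact hz h)
      refine ⟨0, y, t, ?_⟩
      push_cast at ht
      linear_combination ht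
    by_cases hz : (p : ℤ) ∣ z
    · apply key z y (by rw [add_comm (z ^ 2)]; exact h1)
      intro hy
      apply hb
      have : b = y ^ 2 + z ^ 2 - (y ^ 2 + z ^ 2 - b) := by ring
      rw [this]
      exact dvd_sub (dvd_add (dvd_pow hy two_ne_zero) (dvd_pow hz two_ne_zero)) h1
    · exact key y z h1 hz

/-- Odd `p` not dividing `b`: always solvable. -/
theorem sol_odd_b {p : ℕ} [hp : Fact p.Prime] (hodd : p ≠ 2) (a b : ℤ) (hb : ¬ (p : ℤ) ∣ b) :
    SolR (a : ℤ_[p]) b := by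
  have h2 : ¬ (p : ℤ) ∣ 2 := by
    intro h
    have h3 : p ∣ 2 := by exact_mod_cast h
    exact hodd ((Nat.prime_dvd_prime_iff_eq hp.out Nat.prime_two).1 h3)
  obtain ⟨y, z, hyz⟩ := ZMod.sq_add_sq p (b : ZMod p)
  obtain ⟨y, rfl⟩ := ZMod.intCast_surjective y
  obtain ⟨z, rfl⟩ := ZMod.intCast_surjective z
  have h1 : (p : ℤ) ∣ y ^ 2 + z ^ 2 - b := by
    rw [← ZMod.intCast_zmod_eq_zero_iff_dvd]
    push_cast
    rw [hyz]; ring
  have key : ∀ y z : ℤ, (p : ℤ) ∣ y ^ 2 + z ^ 2 - b → ¬ (p : ℤ) ∣ z → SolR (a : ℤ_[p]) b := by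
    intro y z h1 hz
    obtain ⟨t, ht⟩ := quad_root_simple (p := p) 0 (y ^ 2 - b) z
      (by
        have : z ^ 2 + 0 * z + (y ^ 2 - b) = y ^ 2 + z ^ 2 - b := by ring
        rw [this]; exact h1)
      (by
        intro h
        rw [add_zero] at h
        rcases (Nat.prime_iff_prime_int.1 hp.out).dvd_or_dvd h with h | h
        · exact h2 h
        · exact hz h)
    refine ⟨0, y, t, ?_⟩
    push_cast at ht
    linear_combination ht
  by_cases hz : (p : ℤ) ∣ z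
  · apply key z y (by rw [add_comm (z ^ 2)]; exact h1)
    intro hy
    apply hb
    have : b = y ^ 2 + z ^ 2 - (y ^ 2 + z ^ 2 - b) := by ring
    rw [this]
    exact dvd_sub (dvd_add (dvd_pow hy two_ne_zero) (dvd_pow hz two_ne_zero)) h1
  · exact key y z h1 hz

/-- Primes at least `5` never obstruct. -/
theorem sol_ge_five {p : ℕ} [hp : Fact p.Prime] (h5 : 5 ≤ p) (a b : ℤ) :
    SolR (a : ℤ_[p]) b := by
  by_cases ha : (p : ℤ) ∣ a
  · exact sol_odd_dvd (by omega) a b ha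
  by_cases hb : (p : ℤ) ∣ b
  · -- use the solution x = y = z = 3 / a modulo p
    have hpr := Nat.prime_iff_prime_int.1 hp.out
    have h3 : ¬ (p : ℤ) ∣ 3 := by
      intro h
      have h3 : p ∣ 3 := by exact_mod_cast h
      have := Nat.le_of_dvd (by norm_num) h3
      omega
    -- inverse of a modulo p
    have hcop : IsCoprime a (p : ℤ) :=
      (((hpr.irreducible).coprime_iff_not_dvd).2 ha).symm
    obtain ⟨i, j, hij⟩ := hcop
    -- i * a + j * p = 1
    set t : ℤ := 3 * i with ht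
    have hat : (p : ℤ) ∣ a * t - 3 := ⟨-3 * j, by rw [ht]; linear_combination 3 * hij⟩
    have htp : ¬ (p : ℤ) ∣ t := by
      intro h
      apply h3
      have : (3 : ℤ) = a * t - (a * t - 3) := by ring
      rw [this]
      exact dvd_sub (Dvd.dvd.mul_left h a) hat
    obtain ⟨z, hz⟩ := quad_root_simple (p := p) (-(a * t * t)) (2 * t ^ 2 - b) t
      (by
        have : t ^ 2 + -(a * t * t) * t + (2 * t ^ 2 - b) = -(t ^ 2 * (a * t - 3)) - b := by ring
        rw [this]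
        exact dvd_sub (Dvd.dvd.neg_right (Dvd.dvd.mul_left hat _)) hb)
      (by
        intro h
        have : 2 * t + -(a * t * t) = -(t * (a * t - 3)) - t := by ring
        rw [this] at h
        apply htp
        have h6 : t = -(t * (a * t - 3)) - (-(t * (a * t - 3)) - t) := by ring
        rw [h6]
        exact dvd_sub (Dvd.dvd.neg_right (Dvd.dvd.mul_left hat _)) h)
    refine ⟨t, t, z, ?_⟩
    push_cast at hz
    linear_combination hz
  · exact sol_odd_b (by omega) a b hb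

/-- The prime `3`. -/
theorem sol_three (a b : ℤ) (h : (3 : ℤ) ∣ a ∨ (b % 9 ≠ 3 ∧ b % 9 ≠ 6)) :
    SolR (a : ℤ_[3]) b := by
  by_cases ha : (3 : ℤ) ∣ a
  · exact sol_odd_dvd (by norm_num) a b (by exact_mod_cast ha)
  by_cases hb : (3 : ℤ) ∣ b
  · have h9 : (9 : ℤ) ∣ b := by
      rcases h with h | h
      · exact absurd h ha
      · omega
    obtain ⟨c, hc⟩ := h9
    have h1 : SolR ((3 * a : ℤ) : ℤ_[3]) c :=
      sol_odd_dvd (by norm_num) (3 * a) c ⟨a, by push_cast; ring⟩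
    have h2 := sol_scale (a : ℤ_[3]) (c : ℤ_[3]) 3 (by push_cast at h1; exact h1)
    have h3 : (b : ℤ_[3]) = 3 ^ 2 * (c : ℤ_[3]) := by
      rw [hc]; push_cast; ring
    rw [h3]; exact h2
  · exact sol_odd_b (by norm_num) a b (by exact_mod_cast hb)

/-- `2`-adic: sums of two squares. -/
theorem sol_two_one_mod_four (a b : ℤ) (h : b % 4 = 1) : SolR (a : ℤ_[2]) b := by
  have h8 : b % 8 = 1 ∨ b % 8 = 5 := by omega
  rcases h8 with h8 | h8
  · obtain ⟨t, ht⟩ := sqrt_two_adic b h8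
    exact ⟨0, 0, t, by rw [← ht]; ring⟩
  · obtain ⟨t, ht⟩ := sqrt_two_adic (b - 4) (by omega)
    refine ⟨0, 2, t, ?_⟩
    rw [ht]; push_cast; ring

theorem sol_two_two_mod_eight (a b : ℤ) (h : b % 8 = 2) : SolR (a : ℤ_[2]) b := by
  obtain ⟨t, ht⟩ := sqrt_two_adic (b - 1) (by omega)
  refine ⟨0, 1, t, ?_⟩
  rw [ht]; push_cast; ring

/-- `2`-adic: odd `a`. -/
theorem sol_two_odd (a b : ℤ) (ha : a % 2 = 1) (hb : b % 4 ≠ 3) : SolR (a : ℤ_[2]) b := by
  by_cases hb2 : b % 2 = 0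
  · obtain ⟨z, hz⟩ := quad_root_simple (p := 2) (-a) (2 - b) 0 (by
      simp only [Nat.cast_ofNat]; omega) (by simp only [Nat.cast_ofNat]; omega)
    refine ⟨1, 1, z, ?_⟩
    push_cast at hz
    linear_combination hz
  · exact sol_two_one_mod_four a b (by omega)

/-- `2`-adic: `a = 4 c`, `b` not divisible by `4`. -/
theorem sol_two_four_mul (c b : ℤ) (hb : b % 4 ≠ 0)
    (h3 : b % 8 = 3 → c % 2 = 0) (h7 : b % 8 = 7 → c % 2 = 1) :
    SolR ((4 * c : ℤ) : ℤ_[2]) b := by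
  by_cases h1 : b % 4 = 1
  · exact sol_two_one_mod_four _ _ h1
  by_cases h2 : b % 8 = 2
  · exact sol_two_two_mod_eight _ _ h2
  by_cases h6 : b % 8 = 6
  · -- x = 2, y = 1, (z - a) ^ 2 = b - 5 + a ^ 2
    obtain ⟨t, ht⟩ := sqrt_two_adic (b - 5 + (4 * c) ^ 2) (by
      have : (4 * c) ^ 2 = 8 * (2 * c ^ 2) := by ring
      rw [this]; omega)
    refine ⟨2, 1, t + (4 * c : ℤ), ?_⟩
    push_cast at ht ⊢
    linear_combination ht
  -- b = 3, 7 mod 8: x = y = 1, (z - 2 c) ^ 2 = 4 c ^ 2 + b - 2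
  have hb37 : b % 8 = 3 ∨ b % 8 = 7 := by omega
  obtain ⟨t, ht⟩ := sqrt_two_adic (4 * c ^ 2 + b - 2) (by
    rcases hb37 with h | h
    · have hc := h3 h
      obtain ⟨d, hd⟩ : (2 : ℤ) ∣ c := Int.dvd_of_emod_eq_zero hc
      rw [hd]
      have : 4 * (2 * d) ^ 2 = 8 * (2 * d ^ 2) := by ring
      rw [this]; omega
    · have hc := h7 h
      obtain ⟨d, hd⟩ : (2 : ℤ) ∣ c - 1 := Int.dvd_of_emod_eq_zero (by omega)
      have hc' : c = 2 * d + 1 := by linarith
      rw [hc']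
      have : 4 * (2 * d + 1) ^ 2 = 8 * (2 * d ^ 2 + 2 * d) + 4 := by ring
      rw [this]; omega)
  refine ⟨1, 1, t + (2 * c : ℤ), ?_⟩
  push_cast at ht ⊢
  linear_combination ht

end Pool.Agent.H8.MarkoffLocal
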