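import Mathlib
import Pool.Agent.H8.MarkoffLocal

set_option autoImplicit false

namespace Pool.Agent.H8.MarkoffLocal

/-- Solvability modulo every positive integer. -/
def Loc (a b : ℤ) : Prop :=
  ∀ m : ℕ, 0 < m → ∃ x y z : ℤ, (m : ℤ) ∣ x ^ 2 + y ^ 2 + z ^ 2 - a * x * y * z - b

theorem solR_zmod_iff (m : ℕ) (a b : ℤ) :
    SolR (a : ZMod m) (b : ZMod m) ↔
      ∃ x y z : ℤ, (m : ℤ) ∣ x ^ 2 + y ^ 2 + z ^ 2 - a * x * y * z - b := by
  constructor
  · rintro ⟨x, y, z, h⟩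
    obtain ⟨x, rfl⟩ := ZMod.intCast_surjective x
    obtain ⟨y, rfl⟩ := ZMod.intCast_surjective y
    obtain ⟨z, rfl⟩ := ZMod.intCast_surjective z
    refine ⟨x, y, z, ?_⟩
    rw [← ZMod.intCast_zmod_eq_zero_iff_dvd]
    push_cast
    rw [h]; ring
  · rintro ⟨x, y, z, h⟩
    refine ⟨x, y, z, ?_⟩
    rw [← ZMod.intCast_zmod_eq_zero_iff_dvd] at h
    push_cast at h
    linear_combination h

/-- Local to all moduli. -/
theorem loc_of_padic (a b : ℤ) (h : ∀ p : ℕ, ∀ _ : Fact p.Prime, SolR (a : ℤ_[p]) (b : ℤ_[p])) :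
    Loc a b := by
  intro m hm
  rw [← solR_zmod_iff]
  have key : ∀ n : ℕ, n ≠ 0 → SolR (a : ZMod n) (b : ZMod n) := by
    intro n
    induction n using Nat.recOnPrimeCoprime with
    | zero => intro h; exact absurd rfl h
    | prime_pow p n hp =>
      intro _
      have : Fact p.Prime := ⟨hp⟩
      have := (h p ⟨hp⟩).map (PadicInt.toZModPow (p := p) n)
      simpa using this
    | coprime u v hu hv huv ihu ihv =>
      intro _
      have h1 := ihu (by omega)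
      have h2 := ihv (by omega)
      obtain ⟨x1, y1, z1, h1⟩ := h1
      obtain ⟨x2, y2, z2, h2⟩ := h2
      have h3 : SolR ((a : ℤ) : ZMod u × ZMod v) ((b : ℤ) : ZMod u × ZMod v) := by
        refine ⟨(x1, x2), (y1, y2), (z1, z2), ?_⟩
        ext
        · simpa using h1
        · simpa using h2
      have h4 := h3.map (ZMod.chineseRemainder huv).symm.toRingHom
      simpa using h4
  exact key m (by omega)

/-- `2`-adic solvability for `8 ∣ a`. -/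
theorem sol_two_eight (n : ℕ) : ∀ c b : ℤ, b.natAbs ≤ n → c % 2 = 0 →
    (∀ (i : ℕ) (m : ℤ), b ≠ 4 ^ i * (8 * m + 7)) → SolR ((4 * c : ℤ) : ℤ_[2]) b := by
  induction n with
  | zero =>
    intro c b hb _ _
    have : b = 0 := by omega
    subst this
    exact ⟨0, 0, 0, by simp⟩
  | succ n ih =>
    intro c b hb hc hne
    by_cases hb0 : b = 0
    · subst hb0; exact ⟨0, 0, 0, by simp⟩
    by_cases hb4 : b % 4 = 0
    · obtain ⟨d, hd⟩ : (4 : ℤ) ∣ b := Int.dvd_of_emod_eq_zero hb4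
      have h1 : SolR ((4 * (2 * c) : ℤ) : ℤ_[2]) d := by
        apply ih (2 * c) d (by omega) (by omega)
        intro i m h
        apply hne (i + 1) m
        rw [hd, h]; ring
      have h2 := sol_scale ((4 * c : ℤ) : ℤ_[2]) (d : ℤ_[2]) 2 (by
        push_cast at h1 ⊢
        rw [show (2 : ℤ_[2]) * (4 * (c : ℤ_[2])) = 4 * (2 * (c : ℤ_[2])) by ring]
        exact h1)
      rw [hd]
      have h3 : ((4 * d : ℤ) : ℤ_[2]) = 2 ^ 2 * (d : ℤ_[2]) := by push_cast; ring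
      rw [h3]; exact h2
    · apply sol_two_four_mul c b hb4 (fun _ => hc)
      intro h7
      exfalso
      apply hne 0 (b / 8)
      omega

/-- `2`-adic solvability for `a ≡ 4 mod 8`. -/
theorem sol_two_four (c b : ℤ) (hc : c % 2 = 1) (h3 : b % 8 ≠ 3)
    (hne : ∀ (i : ℕ) (m : ℤ), b ≠ 4 ^ (i + 1) * (8 * m + 7)) :
    SolR ((4 * c : ℤ) : ℤ_[2]) b := by
  by_cases hb4 : b % 4 = 0
  · obtain ⟨d, hd⟩ : (4 : ℤ) ∣ b := Int.dvd_of_emod_eq_zero hb4
    have h1 : SolR ((4 * (2 * c) : ℤ) : ℤ_[2]) d := by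
      apply sol_two_eight d.natAbs (2 * c) d le_rfl (by omega)
      intro i m h
      apply hne i m
      rw [hd, h]; ring
    have h2 := sol_scale ((4 * c : ℤ) : ℤ_[2]) (d : ℤ_[2]) 2 (by
      push_cast at h1 ⊢
      rw [show (2 : ℤ_[2]) * (4 * (c : ℤ_[2])) = 4 * (2 * (c : ℤ_[2])) by ring]
      exact h1)
    rw [hd]
    have h3 : ((4 * d : ℤ) : ℤ_[2]) = 2 ^ 2 * (d : ℤ_[2]) := by push_cast; ring
    rw [h3]; exact h2
  · exact sol_two_four_mul c b hb4 (fun h => absurd h h3) (fun _ => hc)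

/-- `2`-adic solvability for `a ≡ 2 mod 4`. -/
theorem sol_two_two (c b : ℤ) (hc : c % 2 = 1) (h3 : b % 4 ≠ 3) (h6 : b % 8 ≠ 6)
    (h12 : b % 32 ≠ 12)
    (hne : ∀ (i : ℕ) (m : ℤ), b ≠ 4 ^ (i + 2) * (8 * m + 7)) :
    SolR ((2 * c : ℤ) : ℤ_[2]) b := by
  by_cases hb4 : b % 4 = 0
  · obtain ⟨d, hd⟩ : (4 : ℤ) ∣ b := Int.dvd_of_emod_eq_zero hb4
    have h1 : SolR ((4 * c : ℤ) : ℤ_[2]) d := by
      apply sol_two_four c d hc (by omega)
      intro i m h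
      apply hne i m
      rw [hd, h]; ring
    have h2 := sol_scale ((2 * c : ℤ) : ℤ_[2]) (d : ℤ_[2]) 2 (by
      push_cast at h1 ⊢
      rw [show (2 : ℤ_[2]) * (2 * (c : ℤ_[2])) = 4 * (c : ℤ_[2]) by ring]
      exact h1)
    rw [hd]
    have h3 : ((4 * d : ℤ) : ℤ_[2]) = 2 ^ 2 * (d : ℤ_[2]) := by push_cast; ring
    rw [h3]; exact h2
  · by_cases h1 : b % 4 = 1
    · exact sol_two_one_mod_four _ _ h1
    · exact sol_two_two_mod_eight _ _ (by omega)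

/-- The explicit local conditions. -/
def LocCond (a b : ℤ) : Prop :=
  ((3 : ℤ) ∣ a ∨ (b % 9 ≠ 3 ∧ b % 9 ≠ 6)) ∧
  (a % 2 = 1 → b % 4 ≠ 3) ∧
  (a % 4 = 2 → b % 4 ≠ 3 ∧ b % 8 ≠ 6 ∧ b % 32 ≠ 12 ∧
    ∀ (i : ℕ) (m : ℤ), b ≠ 4 ^ (i + 2) * (8 * m + 7)) ∧
  (a % 8 = 4 → b % 8 ≠ 3 ∧ ∀ (i : ℕ) (m : ℤ), b ≠ 4 ^ (i + 1) * (8 * m + 7)) ∧
  (a % 8 = 0 → ∀ (i : ℕ) (m : ℤ), b ≠ 4 ^ i * (8 * m + 7))

theorem loc_of_cond (a b : ℤ) (h : LocCond a b) : Loc a b := by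
  obtain ⟨h3, h1, h2, h4, h8⟩ := h
  apply loc_of_padic
  intro p hp
  by_cases hp2 : p = 2
  · subst hp2
    by_cases ha1 : a % 2 = 1
    · exact sol_two_odd a b ha1 (h1 ha1)
    by_cases ha2 : a % 4 = 2
    · obtain ⟨k1, k2, k3, k4⟩ := h2 ha2
      have := sol_two_two (a / 2) b (by omega) k1 k2 k3 k4
      have ha : 2 * (a / 2) = a := by omega
      rw [ha] at this
      exact this
    by_cases ha4 : a % 8 = 4
    · obtain ⟨k1, k2⟩ := h4 ha4
      have := sol_two_four (a / 4) b (by omega) k1 k2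
      have ha : 4 * (a / 4) = a := by omega
      rw [ha] at this
      exact this
    · have ha8 : a % 8 = 0 := by omega
      have := sol_two_eight b.natAbs (a / 4) b le_rfl (by omega) (h8 ha8)
      have ha : 4 * (a / 4) = a := by omega
      rw [ha] at this
      exact this
  by_cases hp3 : p = 3
  · subst hp3
    exact sol_three a b h3
  · have h5 : 5 ≤ p := by
      have h2 := hp.out.two_le
      by_contra hcon
      have : p = 4 := by omega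
      subst this
      exact absurd hp.out (by norm_num)
    exact sol_ge_five h5 a b

/-! Necessity. -/

theorem mod_three (a b : ℤ) (h : Loc a b) : (3 : ℤ) ∣ a ∨ (b % 9 ≠ 3 ∧ b % 9 ≠ 6) := by
  by_contra hcon
  push Not at hcon
  obtain ⟨h3a, hb⟩ := hcon
  have hb3 : (3 : ℤ) ∣ b := by
    by_cases h9 : b % 9 = 3
    · omega
    · have := hb h9; omega
  obtain ⟨x, y, z, hxyz⟩ := h 9 (by norm_num)
  have h3 : (3 : ℤ) ∣ x ^ 2 + y ^ 2 + z ^ 2 - a * x * y * z := by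
    have : x ^ 2 + y ^ 2 + z ^ 2 - a * x * y * z =
      (x ^ 2 + y ^ 2 + z ^ 2 - a * x * y * z - b) + b := by ring
    rw [this]
    exact dvd_add (dvd_trans (by norm_num) hxyz) hb3
  have key : ∀ a x y z : ZMod 3, a ≠ 0 → x ^ 2 + y ^ 2 + z ^ 2 - a * x * y * z = 0 →
      x = 0 ∧ y = 0 ∧ z = 0 := by decide
  have hcast := key (a : ZMod 3) x y z (by
    intro h0
    exact h3a ((ZMod.intCast_zmod_eq_zero_iff_dvd a 3).1 h0)) (by
    have := (ZMod.intCast_zmod_eq_zero_iff_dvd (x ^ 2 + y ^ 2 + z ^ 2 - a * x * y * z) 3).2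
      (by exact_mod_cast h3)
    push_cast at this
    exact this)
  obtain ⟨hx, hy, hz⟩ := hcast
  have hx3 : (3 : ℤ) ∣ x := (ZMod.intCast_zmod_eq_zero_iff_dvd x 3).1 hx
  have hy3 : (3 : ℤ) ∣ y := (ZMod.intCast_zmod_eq_zero_iff_dvd y 3).1 hy
  have hz3 : (3 : ℤ) ∣ z := (ZMod.intCast_zmod_eq_zero_iff_dvd z 3).1 hz
  obtain ⟨x', rfl⟩ := hx3
  obtain ⟨y', rfl⟩ := hy3
  obtain ⟨z', rfl⟩ := hz3
  have h9 : (9 : ℤ) ∣ b := by
    have : b = 9 * (x' ^ 2 + y' ^ 2 + z' ^ 2 - 3 * a * x' * y' * z') -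
      ((3 * x') ^ 2 + (3 * y') ^ 2 + (3 * z') ^ 2 - a * (3 * x') * (3 * y') * (3 * z') - b) := by
      ring
    rw [this]
    exact dvd_sub (Dvd.intro _ rfl) hxyz
  by_cases h9' : b % 9 = 3
  · omega
  · have := hb h9'; omega

/-- Solvability modulo all powers of two. -/
def L2 (a b : ℤ) : Prop :=
  ∀ k : ℕ, ∃ x y z : ℤ, (2 : ℤ) ^ k ∣ x ^ 2 + y ^ 2 + z ^ 2 - a * x * y * z - b

theorem Loc.toL2 {a b : ℤ} (h : Loc a b) : L2 a b := by
  intro k
  obtain ⟨x, y, z, h⟩ := h (2 ^ k) (by positivity)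
  exact ⟨x, y, z, by exact_mod_cast h⟩

theorem L2.step {a b : ℤ} (ha : a % 2 = 0) (h : L2 a (4 * b)) : L2 (2 * a) b := by
  intro k
  obtain ⟨x, y, z, hxyz⟩ := h (k + 2)
  have h4 : (4 : ℤ) ∣ x ^ 2 + y ^ 2 + z ^ 2 - a * x * y * z := by
    have : x ^ 2 + y ^ 2 + z ^ 2 - a * x * y * z =
      (x ^ 2 + y ^ 2 + z ^ 2 - a * x * y * z - 4 * b) + 4 * b := by ring
    rw [this]
    refine dvd_add (dvd_trans ?_ hxyz) (Dvd.intro _ rfl)
    rw [pow_add]; norm_num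
  have key : ∀ a x y z : ZMod 4, (a = 0 ∨ a = 2) → x ^ 2 + y ^ 2 + z ^ 2 - a * x * y * z = 0 →
      (x = 0 ∨ x = 2) ∧ (y = 0 ∨ y = 2) ∧ (z = 0 ∨ z = 2) := by decide
  have even_of : ∀ t : ℤ, ((t : ZMod 4) = 0 ∨ (t : ZMod 4) = 2) → (2 : ℤ) ∣ t := by
    intro t ht
    rcases ht with ht | ht
    · have := (ZMod.intCast_zmod_eq_zero_iff_dvd t 4).1 ht
      exact dvd_trans (by norm_num) this
    · have h1 : ((t - 2 : ℤ) : ZMod 4) = 0 := by push_cast; rw [ht]; ring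
      have := (ZMod.intCast_zmod_eq_zero_iff_dvd (t - 2) 4).1 h1
      push_cast at this
      omega
  have hcast := key (a : ZMod 4) x y z (by
    have h4a : a % 4 = 0 ∨ a % 4 = 2 := by omega
    rcases h4a with h | h
    · left; exact (ZMod.intCast_zmod_eq_zero_iff_dvd a 4).2 (by push_cast; omega)
    · right
      have h1 : ((a - 2 : ℤ) : ZMod 4) = 0 :=
        (ZMod.intCast_zmod_eq_zero_iff_dvd (a - 2) 4).2 (by push_cast; omega)
      push_cast at h1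
      linear_combination h1) (by
    have := (ZMod.intCast_zmod_eq_zero_iff_dvd (x ^ 2 + y ^ 2 + z ^ 2 - a * x * y * z) 4).2
      (by exact_mod_cast h4)
    push_cast at this
    exact this)
  obtain ⟨hx, hy, hz⟩ := hcast
  obtain ⟨x', rfl⟩ := even_of x hx
  obtain ⟨y', rfl⟩ := even_of y hy
  obtain ⟨z', rfl⟩ := even_of z hz
  refine ⟨x', y', z', ?_⟩
  have h5 : (2 * x') ^ 2 + (2 * y') ^ 2 + (2 * z') ^ 2 - a * (2 * x') * (2 * y') * (2 * z') - 4 * b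
      = 4 * (x' ^ 2 + y' ^ 2 + z' ^ 2 - (2 * a) * x' * y' * z' - b) := by ring
  rw [h5, show (2 : ℤ) ^ (k + 2) = 4 * 2 ^ k by ring] at hxyz
  exact (mul_dvd_mul_iff_left (by norm_num : (4 : ℤ) ≠ 0)).1 hxyz

/-- Reduction of `L2` modulo `8`. -/
theorem L2.mod_eight {a b : ℤ} (h : L2 a b) (a' b' : ZMod 8) (ha : (a : ZMod 8) = a')
    (hb : (b : ZMod 8) = b') :
    ∃ x y z : ZMod 8, x ^ 2 + y ^ 2 + z ^ 2 - a' * x * y * z = b' := by
  obtain ⟨x, y, z, h⟩ := h 3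
  refine ⟨x, y, z, ?_⟩
  have h1 := (ZMod.intCast_zmod_eq_zero_iff_dvd
    (x ^ 2 + y ^ 2 + z ^ 2 - a * x * y * z - b) 8).2 (by
      push_cast
      norm_num at h
      exact h)
  push_cast at h1
  rw [ha, hb] at h1
  linear_combination h1

theorem cast8 (b r : ℤ) (h : b % 8 = r) : (b : ZMod 8) = (r : ZMod 8) := by
  rw [ZMod.intCast_eq_intCast_iff, ← h]
  exact (Int.mod_modEq b 8).symm

theorem L2_zero {a b : ℤ} (ha : a % 8 = 0) (h : L2 a b) : b % 8 ≠ 7 := by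
  intro hb
  have key : ∀ x y z : ZMod 8, x ^ 2 + y ^ 2 + z ^ 2 - 0 * x * y * z ≠ 7 := by decide
  obtain ⟨x, y, z, h⟩ := h.mod_eight 0 7 (by simpa using cast8 a 0 ha) (by simpa using cast8 b 7 hb)
  exact key x y z h

theorem L2_four {a b : ℤ} (ha : a % 8 = 4) (h : L2 a b) : b % 8 ≠ 3 := by
  intro hb
  have key : ∀ x y z : ZMod 8, x ^ 2 + y ^ 2 + z ^ 2 - 4 * x * y * z ≠ 3 := by decide
  obtain ⟨x, y, z, h⟩ := h.mod_eight 4 3 (by simpa using cast8 a 4 ha) (by simpa using cast8 b 3 hb)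
  exact key x y z h

theorem L2_two {a b : ℤ} (ha : a % 4 = 2) (h : L2 a b) : b % 8 ≠ 3 ∧ b % 8 ≠ 7 ∧ b % 8 ≠ 6 := by
  have key2 : ∀ x y z : ZMod 8, x ^ 2 + y ^ 2 + z ^ 2 - 2 * x * y * z ≠ 3 ∧
      x ^ 2 + y ^ 2 + z ^ 2 - 2 * x * y * z ≠ 7 ∧ x ^ 2 + y ^ 2 + z ^ 2 - 2 * x * y * z ≠ 6 := by
    decide
  have key6 : ∀ x y z : ZMod 8, x ^ 2 + y ^ 2 + z ^ 2 - 6 * x * y * z ≠ 3 ∧
      x ^ 2 + y ^ 2 + z ^ 2 - 6 * x * y * z ≠ 7 ∧ x ^ 2 + y ^ 2 + z ^ 2 - 6 * x * y * z ≠ 6 := by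
    decide
  have ha8 : a % 8 = 2 ∨ a % 8 = 6 := by omega
  refine ⟨?_, ?_, ?_⟩ <;> intro hb <;> rcases ha8 with ha8 | ha8
  · obtain ⟨x, y, z, h⟩ := h.mod_eight 2 3 (by simpa using cast8 a 2 ha8)
      (by simpa using cast8 b 3 hb)
    exact (key2 x y z).1 h
  · obtain ⟨x, y, z, h⟩ := h.mod_eight 6 3 (by simpa using cast8 a 6 ha8)
      (by simpa using cast8 b 3 hb)
    exact (key6 x y z).1 h
  · obtain ⟨x, y, z, h⟩ := h.mod_eight 2 7 (by simpa using cast8 a 2 ha8)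
      (by simpa using cast8 b 7 hb)
    exact (key2 x y z).2.1 h
  · obtain ⟨x, y, z, h⟩ := h.mod_eight 6 7 (by simpa using cast8 a 6 ha8)
      (by simpa using cast8 b 7 hb)
    exact (key6 x y z).2.1 h
  · obtain ⟨x, y, z, h⟩ := h.mod_eight 2 6 (by simpa using cast8 a 2 ha8)
      (by simpa using cast8 b 6 hb)
    exact (key2 x y z).2.2 h
  · obtain ⟨x, y, z, h⟩ := h.mod_eight 6 6 (by simpa using cast8 a 6 ha8)
      (by simpa using cast8 b 6 hb)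
    exact (key6 x y z).2.2 h

theorem L2_odd {a b : ℤ} (ha : a % 2 = 1) (h : L2 a b) : b % 4 ≠ 3 := by
  intro hb
  have key : ∀ a x y z : ZMod 4, (a = 1 ∨ a = 3) → x ^ 2 + y ^ 2 + z ^ 2 - a * x * y * z ≠ 3 := by
    decide
  obtain ⟨x, y, z, h⟩ := h 2
  have h1 := (ZMod.intCast_zmod_eq_zero_iff_dvd
    (x ^ 2 + y ^ 2 + z ^ 2 - a * x * y * z - b) 4).2 (by
      push_cast
      norm_num at h
      exact h)
  push_cast at h1
  have hb' : (b : ZMod 4) = 3 := by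
    have : ((b : ℤ) : ZMod 4) = ((3 : ℤ) : ZMod 4) := by
      rw [ZMod.intCast_eq_intCast_iff]
      show b % 4 = 3 % 4
      rw [hb]; norm_num
    simpa using this
  have ha' : (a : ZMod 4) = 1 ∨ (a : ZMod 4) = 3 := by
    have : a % 4 = 1 ∨ a % 4 = 3 := by omega
    rcases this with h | h
    · left
      have : ((a : ℤ) : ZMod 4) = ((1 : ℤ) : ZMod 4) := by
        rw [ZMod.intCast_eq_intCast_iff]
        show a % 4 = 1 % 4
        rw [h]; norm_num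
      simpa using this
    · right
      have : ((a : ℤ) : ZMod 4) = ((3 : ℤ) : ZMod 4) := by
        rw [ZMod.intCast_eq_intCast_iff]
        show a % 4 = 3 % 4
        rw [h]; norm_num
      simpa using this
  apply key (a : ZMod 4) x y z ha'
  rw [hb'] at h1
  linear_combination h1

theorem L2_zero_all (i : ℕ) : ∀ a b : ℤ, a % 8 = 0 → L2 a b → ∀ m : ℤ, b ≠ 4 ^ i * (8 * m + 7) := by
  induction i with
  | zero =>
    intro a b ha h m hb
    apply L2_zero ha h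
    rw [hb]; omega
  | succ i ih =>
    intro a b ha h m hb
    have hb' : b = 4 * (4 ^ i * (8 * m + 7)) := by rw [hb]; ring
    rw [hb'] at h
    exact ih (2 * a) _ (by omega) (h.step (by omega)) m rfl

theorem L2_four_all (i : ℕ) (a b : ℤ) (ha : a % 8 = 4) (h : L2 a b) (m : ℤ) :
    b ≠ 4 ^ (i + 1) * (8 * m + 7) := by
  intro hb
  have hb' : b = 4 * (4 ^ i * (8 * m + 7)) := by rw [hb]; ring
  rw [hb'] at h
  exact L2_zero_all i (2 * a) _ (by omega) (h.step (by omega)) m rfl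

theorem L2_two_all (i : ℕ) (a b : ℤ) (ha : a % 4 = 2) (h : L2 a b) (m : ℤ) :
    b ≠ 4 ^ (i + 2) * (8 * m + 7) := by
  intro hb
  have hb' : b = 4 * (4 ^ (i + 1) * (8 * m + 7)) := by rw [hb]; ring
  rw [hb'] at h
  exact L2_four_all i (2 * a) _ (by omega) (h.step (by omega)) m rfl

theorem cond_of_loc (a b : ℤ) (h : Loc a b) : LocCond a b := by
  have h2 := h.toL2
  refine ⟨mod_three a b h, fun ha => L2_odd ha h2, fun ha => ?_, fun ha => ?_, fun ha => ?_⟩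
  · obtain ⟨k1, k2, k3⟩ := L2_two ha h2
    refine ⟨by omega, k3, ?_, fun i m => L2_two_all i a b ha h2 m⟩
    intro hb
    obtain ⟨d, hd⟩ : (4 : ℤ) ∣ b := by omega
    rw [hd] at h2
    have := L2_four (a := 2 * a) (b := d) (by omega) (h2.step (by omega))
    omega
  · exact ⟨L2_four ha h2, fun i m => L2_four_all i a b ha h2 m⟩
  · exact fun i m => L2_zero_all i a b ha h2 m

theorem loc_iff (a b : ℤ) : Loc a b ↔ LocCond a b := ⟨cond_of_loc a b, loc_of_cond a b⟩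

end Pool.Agent.H8.MarkoffLocal
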