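import Mathlib
import Pool.Agent.H8.MarkoffLocal2

set_option autoImplicit false

namespace Pool.Agent.H8.HasseFailures

open Pool.Agent.H8.MarkoffLocal

theorem exists_prime_three_mod_four (n : ℕ) (h : n % 4 = 3) :
    ∃ q : ℕ, q.Prime ∧ q ∣ n ∧ q % 4 = 3 := by
  induction n using Nat.strong_induction_on with
  | _ n ih =>
    have hn1 : n ≠ 1 := by omega
    have hp := Nat.minFac_prime hn1
    have hd := Nat.minFac_dvd n
    set p := n.minFac with hpdef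
    by_cases h3 : p % 4 = 3
    · exact ⟨p, hp, hd, h3⟩
    · obtain ⟨m, hm⟩ := hd
      have hodd : p % 2 = 1 := by
        rcases hp.eq_two_or_odd with h2 | h2
        · rw [h2] at hm; omega
        · exact h2
      have h1 : p % 4 = 1 := by omega
      have hm3 : m % 4 = 3 := by
        have : n % 4 = ((p % 4) * (m % 4)) % 4 := by rw [hm, Nat.mul_mod]
        rw [h1] at this
        omega
      have hmlt : m < n := by
        have h2 := hp.two_le
        have hmpos : 0 < m := by omega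
        nlinarith
      obtain ⟨q, hq, hqm, hq3⟩ := ih m hmlt hm3
      exact ⟨q, hq, by rw [hm]; exact Dvd.dvd.mul_left hqm p, hq3⟩

/-- No solution with an even coordinate `x`. -/
theorem no_even (c b x y z : ℤ) (ν : ℕ) (hν : ν.Prime) (hν4 : ν % 4 = 1)
    (hb : c ^ 2 * b = 1 - (ν : ℤ) ^ 2) (hc : c ≠ 0) (hbneg : b < 0)
    (h : x ^ 2 + y ^ 2 + z ^ 2 - 2 * c * x * y * z = b) (hx : x % 2 = 0) : False := by
  by_cases hx0 : x = 0
  · subst hx0; nlinarith [sq_nonneg y, sq_nonneg z]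
  -- the key identity
  have hid : (c * z - c ^ 2 * x * y) ^ 2 + (ν : ℤ) ^ 2 = ((c * x) ^ 2 - 1) * ((c * y) ^ 2 - 1) := by
    have : c ^ 2 * (x ^ 2 + y ^ 2 + z ^ 2 - 2 * c * x * y * z) = 1 - (ν : ℤ) ^ 2 := by rw [h, hb]
    linear_combination this
  obtain ⟨x', rfl⟩ : (2 : ℤ) ∣ x := Int.dvd_of_emod_eq_zero hx
  have hcx : c * x' ≠ 0 := mul_ne_zero hc (by rintro rfl; simp at hx0)
  have hsq : 1 ≤ (c * x') ^ 2 := by
    have : 0 < (c * x') ^ 2 := by positivity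
    omega
  set n : ℕ := (((c * (2 * x')) ^ 2 - 1 : ℤ)).toNat with hn
  have hncast : (n : ℤ) = (c * (2 * x')) ^ 2 - 1 := by
    rw [hn, Int.toNat_of_nonneg]
    nlinarith
  have hn3 : n % 4 = 3 := by
    have : (n : ℤ) = 4 * (c * x') ^ 2 - 1 := by rw [hncast]; ring
    omega
  obtain ⟨q, hq, hqn, hq3⟩ := exists_prime_three_mod_four n hn3
  have : Fact q.Prime := ⟨hq⟩
  have hqν : ¬ q ∣ ν := by
    intro hd
    have := (Nat.prime_dvd_prime_iff_eq hq hν).1 hd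
    omega
  have hdvd : (q : ℤ) ∣ (c * z - c ^ 2 * (2 * x') * y) ^ 2 + (ν : ℤ) ^ 2 := by
    rw [hid, ← hncast]
    exact Dvd.dvd.mul_right (by exact_mod_cast hqn) _
  have hz := (ZMod.intCast_zmod_eq_zero_iff_dvd _ q).2 hdvd
  push_cast at hz
  have hν0 : (ν : ZMod q) ≠ 0 := by
    intro h0
    exact hqν ((ZMod.natCast_eq_zero_iff ν q).1 h0)
  exact ZMod.mod_four_ne_three_of_sq_eq_neg_sq' (p := q)
    (x := ((c : ZMod q) * z - c ^ 2 * (2 * x') * y)) (y := (ν : ZMod q)) hν0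
    (by linear_combination hz) hq3

/-- The values `b` of the family, indexed by primes `ν`. -/
theorem no_solution (c b : ℤ) (ν : ℕ) (hν : ν.Prime) (hν4 : ν % 4 = 1)
    (hb : c ^ 2 * b = 1 - (ν : ℤ) ^ 2) (hc : c ≠ 0) (hbneg : b < 0) (hbeven : b % 2 = 0) :
    ¬ ∃ x y z : ℤ, x ^ 2 + y ^ 2 + z ^ 2 - 2 * c * x * y * z = b := by
  rintro ⟨x, y, z, h⟩
  by_cases hx : x % 2 = 0
  · exact no_even c b x y z ν hν hν4 hb hc hbneg h hx
  by_cases hy : y % 2 = 0
  · exact no_even c b y x z ν hν hν4 hb hc hbneg (by rw [← h]; ring) hy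
  by_cases hz : z % 2 = 0
  · exact no_even c b z y x ν hν hν4 hb hc hbneg (by rw [← h]; ring) hz
  -- all odd: parity contradiction
  obtain ⟨i, hi⟩ : ∃ i, x = 2 * i + 1 := ⟨x / 2, by omega⟩
  obtain ⟨j, hj⟩ : ∃ j, y = 2 * j + 1 := ⟨y / 2, by omega⟩
  obtain ⟨k, hk⟩ : ∃ k, z = 2 * k + 1 := ⟨z / 2, by omega⟩
  obtain ⟨l, hl⟩ : (2 : ℤ) ∣ b := Int.dvd_of_emod_eq_zero hbeven
  have h1 : x ^ 2 + y ^ 2 + z ^ 2 - 2 * c * x * y * z =
      2 * (2 * i ^ 2 + 2 * i + 2 * j ^ 2 + 2 * j + 2 * k ^ 2 + 2 * k + 1 - c * x * y * z) + 1 := by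
    rw [hi, hj, hk]; ring
  rw [h1, hl] at h
  omega

theorem main (a : ℤ) (ha : a ≠ 0) (heven : Even a) :
    {b : ℤ | (∀ m : ℕ, 0 < m →
        ∃ x y z : ℤ, (m : ℤ) ∣ x ^ 2 + y ^ 2 + z ^ 2 - a * x * y * z - b) ∧
      ¬ ∃ x y z : ℤ, x ^ 2 + y ^ 2 + z ^ 2 - a * x * y * z = b}.Infinite := by
  obtain ⟨c, hc⟩ := heven
  have hac : a = 2 * c := by rw [hc]; ring
  have hc0 : c ≠ 0 := by rintro rfl; exact ha (by rw [hac]; ring)
  set M : ℕ := (72 * c ^ 2).toNat with hM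
  have hc2 : 1 ≤ c ^ 2 := by
    have : 0 < c ^ 2 := by positivity
    omega
  have hMcast : (M : ℤ) = 72 * c ^ 2 := by rw [hM, Int.toNat_of_nonneg (by positivity)]
  have hM0 : M ≠ 0 := by
    intro h0
    rw [h0] at hMcast
    push_cast at hMcast
    linarith
  have hcop : IsCoprime (1 + 36 * c ^ 2 : ℤ) (M : ℤ) := by
    rw [hMcast]
    -- (1 - 36 c^2) (1 + 36 c^2) + 18 c^2 (72 c^2) = 1
    exact ⟨1 - 36 * c ^ 2, 18 * c ^ 2, by ring⟩
  apply Set.infinite_of_forall_exists_lt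
  intro B
  obtain ⟨ν, hνgt, hν, hmod⟩ := Nat.forall_exists_prime_gt_and_zmodEq
    (B.natAbs * (c.natAbs ^ 2) + 2) hM0 hcop
  -- ν = 1 + 36 c^2 w with w odd
  rw [hMcast] at hmod
  obtain ⟨j, hj⟩ := hmod.symm.dvd
  set w : ℤ := 1 + 2 * j with hw
  have hνw : (ν : ℤ) = 1 + 36 * c ^ 2 * w := by rw [hw]; linarith
  have hνpos : (2 : ℤ) ≤ ν := by exact_mod_cast hν.two_le
  have hwpos : 1 ≤ w := by
    by_contra hcon
    have : w ≤ 0 := by omega
    have : 36 * c ^ 2 * w ≤ 0 := mul_nonpos_of_nonneg_of_nonpos (by positivity) this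
    linarith
  have hb : c ^ 2 * (-(72 * w * (18 * c ^ 2 * w + 1))) = 1 - (ν : ℤ) ^ 2 := by
    rw [hνw]; ring
  have hodd : (9 * w * (18 * c ^ 2 * w + 1)) % 2 = 1 := by
    have : 9 * w * (18 * c ^ 2 * w + 1) = 2 * (81 * w * c ^ 2 * w + 9 * j + 4) + 1 := by
      rw [hw]; ring
    omega
  set t : ℤ := 9 * w * (18 * c ^ 2 * w + 1) with ht
  have hbt : -(72 * w * (18 * c ^ 2 * w + 1)) = -(8 * t) := by rw [ht]; ring
  have hbneg : -(72 * w * (18 * c ^ 2 * w + 1)) < 0 := by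
    have : 0 < 72 * w * (18 * c ^ 2 * w + 1) := by positivity
    linarith
  have hν4 : ν % 4 = 1 := by
    have : (ν : ℤ) = 4 * (9 * c ^ 2 * w) + 1 := by rw [hνw]; ring
    omega
  refine ⟨-(72 * w * (18 * c ^ 2 * w + 1)), ⟨?_, ?_⟩, ?_⟩
  · -- local solvability
    have hne : ∀ (i : ℕ) (m : ℤ), -(8 * t) ≠ 4 ^ i * (8 * m + 7) := by
      intro i m h
      rcases Nat.lt_or_ge i 2 with hi | hi
      · interval_cases i
        · rw [pow_zero, one_mul] at h; omega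
        · rw [pow_one] at h; omega
      · obtain ⟨k, rfl⟩ := Nat.exists_eq_add_of_le hi
        rw [pow_add] at h
        have h16 : (4 : ℤ) ^ 2 * 4 ^ k * (8 * m + 7) = 16 * (4 ^ k * (8 * m + 7)) := by ring
        rw [h16] at h
        omega
    rw [hbt]
    apply loc_of_cond
    refine ⟨Or.inr ?_, fun h => ?_, fun h => ⟨?_, ?_, ?_, fun i m => hne (i + 2) m⟩,
      fun h => ⟨?_, fun i m => hne (i + 1) m⟩, fun h => hne⟩
    · have h9 : -(8 * t) = 9 * (-(8 * (w * (18 * c ^ 2 * w + 1)))) := by rw [ht]; ring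
      rw [h9]; constructor <;> omega
    · omega
    · omega
    · omega
    · omega
    · omega
  · -- no solutions
    rw [hac]
    exact no_solution c _ ν hν hν4 hb hc0 hbneg (by rw [hbt]; omega)
  · -- unbounded below
    by_contra hcon
    push Not at hcon
    have hgt : (B.natAbs : ℤ) * c ^ 2 + 2 < ν := by
      have h1 : ((B.natAbs * c.natAbs ^ 2 + 2 : ℕ) : ℤ) < ν := by exact_mod_cast hνgt
      push_cast at h1
      simpa [sq_abs] using h1
    have hB : -(B.natAbs : ℤ) ≤ B := by omega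
    have h1 : -(B.natAbs : ℤ) * c ^ 2 ≤ 1 - (ν : ℤ) ^ 2 := by
      rw [← hb]
      nlinarith
    nlinarith

end Pool.Agent.H8.HasseFailures
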