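import Mathlib

set_option autoImplicit false

namespace Pool.Agent.H8.Kernel

open Finset

/-- Length of the overlap of `[p, p+h)` and `[q, q+h)`. -/
def ov (h p q : ℕ) : ℕ := min (p + h) (q + h) - max p q

theorem card_inter (h p q : ℕ) : (Ico p (p + h) ∩ Ico q (q + h)).card = ov h p q := by
  rw [Ico_inter_Ico, Nat.card_Ico, ov]

/-- Cauchy–Schwarz for sliding windows. -/
theorem cs (P : Finset ℕ) (x h : ℕ) (hP : ∀ p ∈ P, p ≤ x) :
    ((h : ℝ) * P.card) ^ 2 ≤ ((x : ℝ) + h) * ∑ p ∈ P, ∑ q ∈ P, (ov h p q : ℝ) := by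
  classical
  let N : ℕ → ℕ := fun s => (P.filter (fun p => s ∈ Ico p (p + h))).card
  have h1 : ∑ s ∈ range (x + h), N s = h * P.card := by
    simp only [N, card_filter]
    rw [sum_comm]
    have : ∀ p ∈ P, ∑ s ∈ range (x + h), (if s ∈ Ico p (p + h) then 1 else 0) = h := by
      intro p hp
      rw [← card_filter]
      have h2 : (range (x + h)).filter (fun s => s ∈ Ico p (p + h)) = Ico p (p + h) := by
        ext s
        simp only [mem_filter, mem_range, mem_Ico]
        have := hP p hp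
        omega
      rw [h2, Nat.card_Ico]; omega
    rw [sum_congr rfl this, sum_const, smul_eq_mul, mul_comm]
  have h2 : ∑ s ∈ range (x + h), (N s) ^ 2 = ∑ p ∈ P, ∑ q ∈ P, ov h p q := by
    have h3 : ∀ s, (N s) ^ 2 = ∑ p ∈ P, ∑ q ∈ P,
        (if s ∈ Ico p (p + h) ∩ Ico q (q + h) then 1 else 0) := by
      intro s
      simp only [N, card_filter, sq, sum_mul_sum]
      apply sum_congr rfl; intro p _
      apply sum_congr rfl; intro q _
      by_cases h1 : s ∈ Ico p (p + h) <;> by_cases h2 : s ∈ Ico q (q + h) <;>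
        simp [h1, h2]
    simp only [h3]
    rw [sum_comm]
    apply sum_congr rfl; intro p hp
    rw [sum_comm]
    apply sum_congr rfl; intro q hq
    rw [← card_filter, ← card_inter]
    congr 1
    ext s
    simp only [mem_filter, mem_range, mem_inter, mem_Ico]
    have := hP p hp
    omega
  have h3 := sq_sum_le_card_mul_sum_sq (s := range (x + h)) (f := fun s => (N s : ℝ))
  have h4 : (∑ s ∈ range (x + h), (N s : ℝ)) = (h : ℝ) * P.card := by
    exact_mod_cast h1
  have h5 : (∑ s ∈ range (x + h), (N s : ℝ) ^ 2) = ∑ p ∈ P, ∑ q ∈ P, (ov h p q : ℝ) := by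
    exact_mod_cast h2
  rw [h4, h5, card_range] at h3
  push_cast at h3
  exact h3

/-- the weights -/
noncomputable def c (h : ℕ) : ℝ := 2 / ((h : ℝ) * (h + 1) * (h + 2))

theorem c_nonneg (h : ℕ) : 0 ≤ c h := by unfold c; positivity

/-- Telescoping. -/
theorem sum_c_sub (u H : ℕ) (hH : u ≤ H) :
    ∑ h ∈ Icc 1 H, c h * ((h - u : ℕ) : ℝ) =
      1 / ((u : ℝ) + 1) - (2 * (H + 1) - u) / (((H : ℝ) + 1) * (H + 2)) := by
  induction H, hH using Nat.le_induction with
  | base =>
    have h0 : ∑ h ∈ Icc 1 u, c h * ((h - u : ℕ) : ℝ) = 0 := by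
      apply sum_eq_zero
      intro h hh
      simp only [mem_Icc] at hh
      have : h - u = 0 := by omega
      rw [this]; simp
    rw [h0]
    field_simp
    ring
  | succ H hH ih =>
    rw [sum_Icc_succ_top (by omega), ih]
    have h1 : ((H + 1 - u : ℕ) : ℝ) = (H : ℝ) + 1 - u := by
      rw [Nat.cast_sub (by omega)]; push_cast; ring
    rw [h1]
    unfold c
    push_cast
    field_simp
    ring

theorem sum_c_sub_le (u J H : ℕ) :
    ∑ h ∈ Icc (J + 1) H, c h * ((h - u : ℕ) : ℝ) ≤ 1 / ((u : ℝ) + 1) := by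
  have hnn : ∀ h, 0 ≤ c h * ((h - u : ℕ) : ℝ) := fun h => mul_nonneg (c_nonneg h) (Nat.cast_nonneg _)
  have hsub : Icc (J + 1) H ⊆ Icc 1 (max u H) := by
    intro h hh
    simp only [mem_Icc] at hh ⊢
    omega
  refine le_trans (sum_le_sum_of_subset_of_nonneg hsub (fun h _ _ => hnn h)) ?_
  rw [sum_c_sub u (max u H) (le_max_left _ _)]
  have h2 : (u : ℝ) ≤ (max u H : ℕ) := by exact_mod_cast le_max_left u H
  have h3 : 0 ≤ (2 * (((max u H : ℕ) : ℝ) + 1) - u) / ((((max u H : ℕ) : ℝ) + 1) * ((max u H : ℕ) + 2)) := by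
    apply div_nonneg
    · have : (0 : ℝ) ≤ u := Nat.cast_nonneg u
      linarith
    · positivity
  linarith

/-- Diagonal terms. -/
theorem sum_c_mul (J H : ℕ) (hJH : J ≤ H) :
    ∑ h ∈ Icc (J + 1) H, c h * (h : ℝ) = 2 / ((J : ℝ) + 2) - 2 / ((H : ℝ) + 2) := by
  induction H, hJH using Nat.le_induction with
  | base => simp
  | succ H hH ih =>
    rw [sum_Icc_succ_top (by omega), ih]
    unfold c
    push_cast
    field_simp
    ring

theorem sum_c_mul_le (J H : ℕ) :
    ∑ h ∈ Icc (J + 1) H, c h * (h : ℝ) ≤ 2 / ((J : ℝ) + 2) := by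
  rcases le_total J H with hJH | hJH
  · rw [sum_c_mul J H hJH]
    have : 0 ≤ 2 / ((H : ℝ) + 2) := by positivity
    linarith
  · have : Icc (J + 1) H = ∅ := by
      rw [Icc_eq_empty]; omega
    rw [this, sum_empty]; positivity

/-- Lower bound for the main sum. -/
theorem sum_c_sq_ge (J H : ℕ) (hJH : J ≤ H) :
    2 * (Real.log (H + 2) - Real.log (J + 2) - 1) ≤ ∑ h ∈ Icc (J + 1) H, c h * (h : ℝ) ^ 2 := by
  have key : ∀ H : ℕ, J ≤ H →
      2 * (Real.log (H + 2) - Real.log (J + 2) - (2 / ((J : ℝ) + 2) - 2 / ((H : ℝ) + 2))) ≤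
      ∑ h ∈ Icc (J + 1) H, c h * (h : ℝ) ^ 2 := by
    intro H hJH
    induction H, hJH using Nat.le_induction with
    | base => simp
    | succ H hH ih =>
      rw [sum_Icc_succ_top (by omega)]
      have h1 : Real.log (((H + 1 : ℕ) : ℝ) + 2) - Real.log ((H : ℝ) + 2) ≤ 1 / ((H : ℝ) + 2) := by
        rw [← Real.log_div (by positivity) (by positivity)]
        have h2 : (((H + 1 : ℕ) : ℝ) + 2) / ((H : ℝ) + 2) = 1 + 1 / ((H : ℝ) + 2) := by
          push_cast; field_simp; ring
        rw [h2]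
        have := Real.log_le_sub_one_of_pos (x := 1 + 1 / ((H : ℝ) + 2)) (by positivity)
        linarith
      have h3 : c (H + 1) * ((H + 1 : ℕ) : ℝ) ^ 2 =
          2 * (1 / ((H : ℝ) + 2) - (2 / ((H : ℝ) + 2) - 2 / (((H + 1 : ℕ) : ℝ) + 2))) := by
        unfold c
        push_cast
        field_simp
        ring
      rw [h3]
      linarith
  refine le_trans ?_ (key H hJH)
  have h4 : 2 / ((J : ℝ) + 2) ≤ 1 := by
    rw [div_le_one (by positivity)]
    have : (0 : ℝ) ≤ J := Nat.cast_nonneg J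
    linarith
  have h5 : 0 ≤ 2 / ((H : ℝ) + 2) := by positivity
  linarith

/-- Pair sum. -/
noncomputable def Phi (P : Finset ℕ) : ℝ :=
  ∑ p ∈ P, ∑ q ∈ P.filter (fun q => q < p), 1 / (((p : ℝ) - q) + 1)

theorem ov_le (h p q : ℕ) : ov h p q = h - (max p q - min p q) := by
  unfold ov
  omega

theorem main_ineq (P : Finset ℕ) (x J H : ℕ) (hP : ∀ p ∈ P, p ≤ x) (hJH : J ≤ H) (hx : 0 < x) :
    (P.card : ℝ) ^ 2 * (Real.log (H + 2) - Real.log (J + 2) - 1) ≤
      ((x : ℝ) + H) * (P.card / ((J : ℝ) + 2) + Phi P) := by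
  classical
  -- sum over h of c_h * Σ_{p,q} ov
  set S : ℝ := ∑ h ∈ Icc (J + 1) H, c h * ∑ p ∈ P, ∑ q ∈ P, (ov h p q : ℝ) with hS
  have hlow : ((P.card : ℝ)) ^ 2 * (2 * (Real.log (H + 2) - Real.log (J + 2) - 1)) ≤
      ((x : ℝ) + H) * S := by
    calc ((P.card : ℝ)) ^ 2 * (2 * (Real.log (H + 2) - Real.log (J + 2) - 1))
        ≤ (P.card : ℝ) ^ 2 * ∑ h ∈ Icc (J + 1) H, c h * (h : ℝ) ^ 2 := by
          gcongr
          exact sum_c_sq_ge J H hJH
      _ = ∑ h ∈ Icc (J + 1) H, c h * ((h : ℝ) * P.card) ^ 2 := by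
          rw [mul_sum]; apply sum_congr rfl; intro h _; ring
      _ ≤ ∑ h ∈ Icc (J + 1) H, c h * (((x : ℝ) + H) * ∑ p ∈ P, ∑ q ∈ P, (ov h p q : ℝ)) := by
          apply sum_le_sum
          intro h hh
          simp only [mem_Icc] at hh
          apply mul_le_mul_of_nonneg_left _ (c_nonneg h)
          refine le_trans (cs P x h hP) ?_
          apply mul_le_mul_of_nonneg_right
          · have : (h : ℝ) ≤ H := by exact_mod_cast hh.2
            linarith
          · positivity
      _ = ((x : ℝ) + H) * S := by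
          rw [hS, mul_sum]; apply sum_congr rfl; intro h _; ring
  have hup : S ≤ 2 * (P.card / ((J : ℝ) + 2) + Phi P) := by
    have h1 : S = ∑ p ∈ P, ∑ q ∈ P, ∑ h ∈ Icc (J + 1) H, c h * (ov h p q : ℝ) := by
      rw [hS]
      simp only [mul_sum]
      rw [sum_comm]
      apply sum_congr rfl; intro p _
      rw [sum_comm]
    -- pointwise bound
    have h2 : ∀ p ∈ P, ∀ q ∈ P, ∑ h ∈ Icc (J + 1) H, c h * (ov h p q : ℝ) ≤
        (if q < p then 1 / (((p : ℝ) - q) + 1) else 0) +
        (if p < q then 1 / (((q : ℝ) - p) + 1) else 0) +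
        (if p = q then 2 / ((J : ℝ) + 2) else 0) := by
      intro p _ q _
      rcases lt_trichotomy q p with hqp | hqp | hqp
      · have h3 : ∀ h, ov h p q = h - (p - q) := by
          intro h; rw [ov_le, max_eq_left hqp.le, min_eq_right hqp.le]
        have h4 : ¬ p < q := by omega
        have h5 : p ≠ q := by omega
        simp only [h3, hqp, h4, h5, if_true, if_false, add_zero]
        have h6 := sum_c_sub_le (p - q) J H
        rw [Nat.cast_sub hqp.le] at h6
        exact h6
      · subst hqp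
        have h3 : ∀ h, ov h q q = h := by
          intro h; rw [ov_le]; simp
        simp only [h3, lt_irrefl, if_false, if_true, zero_add]
        exact sum_c_mul_le J H
      · have h3 : ∀ h, ov h p q = h - (q - p) := by
          intro h; rw [ov_le, max_eq_right hqp.le, min_eq_left hqp.le]
        have h4 : ¬ q < p := by omega
        have h5 : p ≠ q := by omega
        simp only [h3, hqp, h4, h5, if_true, if_false, add_zero, zero_add]
        have h6 := sum_c_sub_le (q - p) J H
        rw [Nat.cast_sub hqp.le] at h6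
        exact h6
    rw [h1]
    calc ∑ p ∈ P, ∑ q ∈ P, ∑ h ∈ Icc (J + 1) H, c h * (ov h p q : ℝ)
        ≤ ∑ p ∈ P, ∑ q ∈ P, ((if q < p then 1 / (((p : ℝ) - q) + 1) else 0) +
        (if p < q then 1 / (((q : ℝ) - p) + 1) else 0) +
        (if p = q then 2 / ((J : ℝ) + 2) else 0)) :=
          sum_le_sum (fun p hp => sum_le_sum (fun q hq => h2 p hp q hq))
      _ = 2 * (P.card / ((J : ℝ) + 2) + Phi P) := by
          simp only [sum_add_distrib]
          have e1 : ∑ p ∈ P, ∑ q ∈ P, (if q < p then 1 / (((p : ℝ) - q) + 1) else 0) = Phi P := by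
            unfold Phi
            apply sum_congr rfl; intro p _
            rw [sum_filter]
          have e2 : ∑ p ∈ P, ∑ q ∈ P, (if p < q then 1 / (((q : ℝ) - p) + 1) else 0) = Phi P := by
            rw [sum_comm, ← e1]
          have e3 : ∑ p ∈ P, ∑ q ∈ P, (if p = q then 2 / ((J : ℝ) + 2) else 0) =
              P.card * (2 / ((J : ℝ) + 2)) := by
            simp
          rw [e1, e2, e3]; ring
  have hxH : 0 < (x : ℝ) + H := by positivity
  have h7 : ((x : ℝ) + H) * S ≤ ((x : ℝ) + H) * (2 * (P.card / ((J : ℝ) + 2) + Phi P)) := by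
    gcongr
  linarith

end Pool.Agent.H8.Kernel
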