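import Mathlib

set_option autoImplicit false

namespace Pool.Agent.H8.Mertens

open Finset Chebyshev

/-- `log k` on primes. -/
noncomputable def a (k : ℕ) : ℝ := if k.Prime then Real.log k else 0

theorem theta_eq (n : ℕ) : Chebyshev.theta (n : ℝ) = ∑ k ∈ Icc 1 n, a k := by
  rw [theta_eq_sum_Icc, Nat.floor_natCast, sum_filter]
  have : Icc 0 n = insert 0 (Icc 1 n) := by
    ext k; simp only [mem_Icc, mem_insert]; omega
  rw [this, sum_insert (by simp)]
  simp [a]

/-- Abel summation. -/
theorem abel (n : ℕ) (hn : 1 ≤ n) :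
    ∑ k ∈ Icc 2 n, a k / ((k : ℝ) - 1) =
      Chebyshev.theta n / n + ∑ k ∈ Icc 2 n, Chebyshev.theta k / ((k : ℝ) * (k - 1)) := by
  induction n, hn using Nat.le_induction with
  | base =>
    simp
  | succ n hn ih =>
    rw [sum_Icc_succ_top (by omega), sum_Icc_succ_top (by omega), ih]
    have h1 : Chebyshev.theta ((n + 1 : ℕ) : ℝ) = Chebyshev.theta (n : ℝ) + a (n + 1) := by
      rw [theta_eq, theta_eq, sum_Icc_succ_top (by omega)]
    rw [h1]
    have hn0 : (n : ℝ) ≠ 0 := by positivity
    have hn1 : (n : ℝ) + 1 ≠ 0 := by positivity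
    push_cast
    rw [add_sub_cancel_right]
    generalize ∑ x ∈ Icc 2 n, Chebyshev.theta (x : ℝ) / ((x : ℝ) * (x - 1)) = S
    field_simp
    ring

theorem log_factorial_eq (n : ℕ) :
    Real.log (n.factorial) = ∑ p ∈ Icc 2 n with p.Prime, (n.factorial.factorization p : ℝ) * Real.log p := by
  have h0 : n.factorial ≠ 0 := Nat.factorial_ne_zero n
  have h1 := Nat.prod_factorization_pow_eq_self h0
  have h2 : (n.factorial.factorization.prod fun p k => p ^ k) =
      ∏ p ∈ Icc 2 n with p.Prime, p ^ (n.factorial.factorization p) := by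
    rw [Finsupp.prod]
    apply prod_subset
    · intro p hp
      rw [Nat.support_factorization, Nat.mem_primeFactors] at hp
      simp only [mem_filter, mem_Icc]
      exact ⟨⟨hp.1.two_le, (hp.1.dvd_factorial).1 hp.2.1⟩, hp.1⟩
    · intro p _ hp
      rw [Finsupp.notMem_support_iff] at hp
      rw [hp, pow_zero]
  rw [h2] at h1
  conv_lhs => rw [← h1]
  rw [Nat.cast_prod, Real.log_prod]
  · apply sum_congr rfl
    intro p _
    rw [Nat.cast_pow, Real.log_pow]
  · intro p hp
    simp only [mem_filter, mem_Icc] at hp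
    have : (p : ℝ) ≠ 0 := by
      have := hp.2.pos
      positivity
    push_cast
    positivity

theorem factorization_factorial_mul_le (n p : ℕ) (hp : p.Prime) :
    (n.factorial.factorization p : ℝ) ≤ n / ((p : ℝ) - 1) := by
  have : Fact p.Prime := ⟨hp⟩
  have h1 := sub_one_mul_padicValNat_factorial (p := p) n
  rw [← Nat.factorization_def _ hp] at h1
  have h2 : (p - 1) * n.factorial.factorization p ≤ n := by
    rw [h1]; exact Nat.sub_le _ _
  have h3 : (1 : ℝ) < p := by exact_mod_cast hp.one_lt
  rw [le_div_iff₀ (by linarith)]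
  have h4 : (((p - 1) * n.factorial.factorization p : ℕ) : ℝ) ≤ n := by exact_mod_cast h2
  rw [Nat.cast_mul, Nat.cast_sub hp.one_lt.le] at h4
  push_cast at h4
  linarith

theorem mertens_lower (n : ℕ) (hn : 1 ≤ n) :
    Real.log n - 1 ≤ ∑ k ∈ Icc 2 n, a k / ((k : ℝ) - 1) := by
  have h1 : n * Real.log n - n ≤ Real.log (n.factorial) := by
    have h0 : (0 : ℝ) < n := by exact_mod_cast hn
    have := Stirling.le_log_factorial_stirling (n := n) (by omega)
    have h2 : 0 ≤ Real.log n := Real.log_nonneg (by exact_mod_cast hn)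
    have h3 : 0 ≤ Real.log (2 * Real.pi) := Real.log_nonneg (by nlinarith [Real.pi_gt_three])
    linarith
  rw [log_factorial_eq] at h1
  have h2 : ∑ p ∈ Icc 2 n with p.Prime, (n.factorial.factorization p : ℝ) * Real.log p ≤
      n * ∑ k ∈ Icc 2 n, a k / ((k : ℝ) - 1) := by
    rw [mul_sum, sum_filter]
    apply sum_le_sum
    intro p _
    by_cases hp : p.Prime
    · simp only [hp, if_true, a]
      have h3 := factorization_factorial_mul_le n p hp
      have h4 : 0 ≤ Real.log p := Real.log_nonneg (by exact_mod_cast hp.one_lt.le)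
      calc (n.factorial.factorization p : ℝ) * Real.log p ≤ n / ((p : ℝ) - 1) * Real.log p := by
            gcongr
        _ = n * (Real.log p / ((p : ℝ) - 1)) := by ring
    · simp [hp, a]
  have h0 : (0 : ℝ) < n := by exact_mod_cast hn
  have h5 := le_trans h1 h2
  have h6 : (n : ℝ) * (Real.log n - 1) ≤ n * ∑ k ∈ Icc 2 n, a k / ((k : ℝ) - 1) := by linarith
  exact le_of_mul_le_mul_left h6 h0

/-- `limsup θ(x)/x ≥ 1`. -/
theorem not_theta_le (η : ℝ) (hη : 0 < η) (x0 : ℕ)
    (h : ∀ n : ℕ, x0 ≤ n → Chebyshev.theta n ≤ (1 - η) * n) : False := by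
  -- constant from the small range
  set C : ℝ := ∑ k ∈ Icc 2 (x0 + 2), Chebyshev.theta k / ((k : ℝ) * (k - 1)) with hC
  have hη1 : η ≤ 1 := by
    have h1 := h (x0 + 1) (by omega)
    have h2 := theta_nonneg ((x0 + 1 : ℕ) : ℝ)
    have h3 : (0 : ℝ) < ((x0 + 1 : ℕ) : ℝ) := by positivity
    by_contra hcon
    push Not at hcon
    nlinarith
  have hbound : ∀ n : ℕ, x0 + 2 ≤ n →
      Real.log n - 1 ≤ 2 + C + (1 - η) * (1 + Real.log n) := by
    intro n hn
    have h1 := mertens_lower n (by omega)
    rw [abel n (by omega)] at h1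
    have hn0 : (0 : ℝ) < n := by
      have : 0 < n := by omega
      exact_mod_cast this
    have h2 : Chebyshev.theta n / n ≤ 2 := by
      rw [div_le_iff₀ hn0]
      have := theta_le_log4_mul_x hn0.le
      have h4 : Real.log 4 ≤ 2 := by
        have : Real.log 4 = 2 * Real.log 2 := by
          rw [show (4 : ℝ) = 2 ^ 2 by norm_num, Real.log_pow]; norm_num
        rw [this]
        have := Real.log_two_lt_d9
        linarith
      nlinarith
    have h3 : ∑ k ∈ Icc 2 n, Chebyshev.theta k / ((k : ℝ) * (k - 1)) ≤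
        C + (1 - η) * (1 + Real.log n) := by
      have hsplit : Icc 2 n = Icc 2 (x0 + 2) ∪ Icc (x0 + 3) n := by
        ext k; simp only [mem_union, mem_Icc]; omega
      have hdisj : Disjoint (Icc 2 (x0 + 2)) (Icc (x0 + 3) n) := by
        rw [disjoint_left]; intro k hk hk'
        simp only [mem_Icc] at hk hk'; omega
      rw [hsplit, sum_union hdisj, ← hC]
      have h4 : ∑ k ∈ Icc (x0 + 3) n, Chebyshev.theta k / ((k : ℝ) * (k - 1)) ≤
          (1 - η) * ∑ k ∈ Icc 1 n, (k : ℝ)⁻¹ := by
        calc ∑ k ∈ Icc (x0 + 3) n, Chebyshev.theta k / ((k : ℝ) * (k - 1))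
            ≤ ∑ k ∈ Icc (x0 + 3) n, (1 - η) * (((k - 1 : ℕ) : ℝ)⁻¹) := by
              apply sum_le_sum
              intro k hk
              simp only [mem_Icc] at hk
              have hk1 : ((k - 1 : ℕ) : ℝ) = (k : ℝ) - 1 := by
                rw [Nat.cast_sub (by omega)]; simp
              have hk2 : (1 : ℝ) < k := by
                have : 1 < k := by omega
                exact_mod_cast this
              rw [hk1, div_le_iff₀ (by nlinarith)]
              have := h k (by omega)
              calc Chebyshev.theta k ≤ (1 - η) * k := this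
                _ = (1 - η) * ((k : ℝ) - 1)⁻¹ * ((k : ℝ) * (k - 1)) := by
                  have : (k : ℝ) - 1 ≠ 0 := by linarith
                  field_simp
          _ = (1 - η) * ∑ k ∈ Icc (x0 + 3) n, (((k - 1 : ℕ) : ℝ)⁻¹) := by rw [mul_sum]
          _ ≤ (1 - η) * ∑ k ∈ Icc 1 n, (k : ℝ)⁻¹ := by
              apply mul_le_mul_of_nonneg_left _ (by linarith)
              have himg : ∑ k ∈ Icc (x0 + 3) n, (((k - 1 : ℕ) : ℝ)⁻¹) =
                  ∑ j ∈ ((Icc (x0 + 3) n).image (fun k : ℕ => (k - 1 : ℕ))), ((j : ℕ) : ℝ)⁻¹ := by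
                rw [sum_image]
                intro k hk k' hk' hkk
                simp only [coe_Icc, Set.mem_Icc] at hk hk'
                simp only at hkk
                omega
              rw [himg]
              apply sum_le_sum_of_subset_of_nonneg
              · intro j hj
                simp only [mem_image, mem_Icc] at hj ⊢
                obtain ⟨k, hk, rfl⟩ := hj
                omega
              · intro j _ _
                positivity
      have h5 : ∑ k ∈ Icc 1 n, (k : ℝ)⁻¹ ≤ 1 + Real.log n := by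
        have := harmonic_le_one_add_log n
        rw [harmonic_eq_sum_Icc] at this
        push_cast at this
        exact this
      have h6 : (1 - η) * ∑ k ∈ Icc 1 n, (k : ℝ)⁻¹ ≤ (1 - η) * (1 + Real.log n) :=
        mul_le_mul_of_nonneg_left h5 (by linarith)
      linarith
    linarith
  -- η log n ≤ const
  have hlim : Filter.Tendsto (fun n : ℕ => Real.log n) Filter.atTop Filter.atTop :=
    Real.tendsto_log_atTop.comp tendsto_natCast_atTop_atTop
  obtain ⟨n, hn1, hn2⟩ := ((hlim.eventually (Filter.eventually_gt_atTop ((C + 5) / η))).and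
    (Filter.eventually_ge_atTop (x0 + 2))).exists
  have h1 := hbound n hn2
  rw [div_lt_iff₀ hη] at hn1
  nlinarith

end Pool.Agent.H8.Mertens
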