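import Mathlib
import Pool.Prelude.Def_F_e101448e
import Pool.Agent.H8.Mertens
import Pool.Agent.H8.Kernel

set_option autoImplicit false

namespace Pool.Agent.H8.LimsupTwo

open Finset Filter Pool.Agent.H8.Kernel

theorem f_nonneg (n : ℕ) : 0 ≤ N5dc7309f.f n := by
  unfold N5dc7309f.f
  apply sum_nonneg
  intro p hp
  simp only [mem_filter, mem_range] at hp
  have : (p : ℝ) < n := by exact_mod_cast hp.1
  apply div_nonneg zero_le_one
  linarith

/-- For a prime `p`, `f (p+1) = 1 + Σ_{q<p} 1/(p-q+1)`. -/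
theorem f_succ (x p : ℕ) (hp : p.Prime) (hpx : p ≤ x) :
    N5dc7309f.f (p + 1) = 1 + ∑ q ∈ (Nat.primesLE x).filter (fun q => q < p), 1 / (((p : ℝ) - q) + 1) := by
  unfold N5dc7309f.f
  have h1 : (range (p + 1)).filter Prime = insert p ((Nat.primesLE x).filter (fun q => q < p)) := by
    ext q
    simp only [mem_filter, mem_range, mem_insert, Nat.mem_primesLE]
    constructor
    · rintro ⟨h1, h2⟩
      have h3 : q.Prime := Nat.prime_iff.2 h2
      rcases Nat.lt_succ_iff_lt_or_eq.1 h1 with h4 | h4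
      · right; exact ⟨⟨by omega, h3⟩, h4⟩
      · left; exact h4
    · rintro (h | ⟨⟨h1, h2⟩, h3⟩)
      · rw [h]; exact ⟨by omega, Nat.prime_iff.1 hp⟩
      · exact ⟨by omega, Nat.prime_iff.1 h2⟩
  rw [h1, sum_insert (by simp)]
  congr 1
  · push_cast
    rw [add_sub_cancel_left, div_one]
  · apply sum_congr rfl
    intro q _
    push_cast
    congr 1
    ring

theorem frequently (ε : ℝ) (hε : 0 < ε) : ∃ᶠ n : ℕ in atTop, 2 - ε < N5dc7309f.f n := by
  intro hcon
  rw [eventually_atTop] at hcon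
  obtain ⟨n0, hn0⟩ := hcon
  push Not at hn0
  -- shrink ε
  wlog hε1 : ε ≤ 1 with Hw
  · exact Hw 1 one_pos n0 (fun n hn => by
      have := hn0 n hn
      push Not at hε1
      linarith) le_rfl
  -- parameters
  obtain ⟨J, hJ⟩ := exists_nat_gt (8 / ε)
  have hJpos : (0 : ℝ) < J := lt_trans (by positivity) hJ
  have hJ' : 1 / ((J : ℝ) + 2) ≤ ε / 8 := by
    rw [div_le_iff₀ (by positivity)]
    have : 8 < ε * J := by rwa [div_lt_iff₀ hε, mul_comm] at hJ
    nlinarith
  have hJ1 : (1 : ℝ) / J ≤ ε / 8 := by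
    rw [div_le_iff₀ hJpos]
    have : 8 < ε * J := by rwa [div_lt_iff₀ hε, mul_comm] at hJ
    nlinarith
  have hJn : 1 ≤ J := by
    have : 0 < J := by exact_mod_cast hJpos
    omega
  -- the exceptional contribution
  set C0 : ℝ := ∑ p ∈ Nat.primesLE n0, N5dc7309f.f (p + 1) with hC0
  have hC0nn : 0 ≤ C0 := sum_nonneg (fun p _ => f_nonneg _)
  have hPhi : ∀ x : ℕ, Phi (Nat.primesLE x) ≤ (1 - ε) * (Nat.primesLE x).card + C0 := by
    intro x
    have h1 : Phi (Nat.primesLE x) = ∑ p ∈ Nat.primesLE x, (N5dc7309f.f (p + 1) - 1) := by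
      unfold Phi
      apply sum_congr rfl
      intro p hp
      rw [Nat.mem_primesLE] at hp
      rw [f_succ x p hp.2 hp.1]; ring
    rw [h1]
    calc ∑ p ∈ Nat.primesLE x, (N5dc7309f.f (p + 1) - 1)
        ≤ ∑ p ∈ Nat.primesLE x, ((1 - ε) + (if p ≤ n0 then N5dc7309f.f (p + 1) else 0)) := by
          apply sum_le_sum
          intro p hp
          by_cases hpn : p ≤ n0
          · simp only [hpn, if_true]; linarith
          · simp only [hpn, if_false]
            have := hn0 (p + 1) (by omega)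
            linarith
      _ = (1 - ε) * (Nat.primesLE x).card + ∑ p ∈ (Nat.primesLE x).filter (fun p => p ≤ n0),
            N5dc7309f.f (p + 1) := by
          rw [sum_add_distrib, sum_const, sum_filter, nsmul_eq_mul]; ring
      _ ≤ (1 - ε) * (Nat.primesLE x).card + C0 := by
          have : ∑ p ∈ (Nat.primesLE x).filter (fun p => p ≤ n0), N5dc7309f.f (p + 1) ≤ C0 := by
            apply sum_le_sum_of_subset_of_nonneg
            · intro p hp
              simp only [mem_filter, Nat.mem_primesLE] at hp ⊢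
              exact ⟨hp.2, hp.1.2⟩
            · intro p _ _; exact f_nonneg _
          linarith
  -- main inequality with H = x / J
  have hmain : ∀ x : ℕ, 0 < x → J * J ≤ x →
      ((Nat.primesLE x).card : ℝ) ^ 2 * (Real.log x - (2 * Real.log (J + 2) + 1)) ≤
        ((x : ℝ) * (1 + ε / 8)) * ((1 - 7 * ε / 8) * (Nat.primesLE x).card + C0) := by
    intro x hx hxJ
    have hJH : J ≤ x / J := by
      rw [Nat.le_div_iff_mul_le (by omega)]; exact hxJ
    have h1 := main_ineq (Nat.primesLE x) x J (x / J)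
      (fun p hp => (Nat.mem_primesLE.1 hp).1) hJH hx
    have hxpos : (0 : ℝ) < x := by exact_mod_cast hx
    -- log (H + 2) ≥ log x - log (J+2)
    have h2 : Real.log x - Real.log (J + 2) ≤ Real.log (((x / J : ℕ) : ℝ) + 2) := by
      rw [← Real.log_div (by positivity) (by positivity)]
      apply Real.log_le_log (by positivity)
      rw [div_le_iff₀ (by positivity)]
      have h3 : x < (x / J + 1) * J := by
        have := Nat.lt_div_mul_add (a := x) (b := J) (by omega)
        linarith [this, Nat.add_mul (x / J) 1 J]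
      have h4 : (x : ℝ) < (((x / J : ℕ) : ℝ) + 1) * J := by exact_mod_cast h3
      have h5 : (0 : ℝ) ≤ ((x / J : ℕ) : ℝ) := Nat.cast_nonneg _
      nlinarith
    have h3 : ((x / J : ℕ) : ℝ) ≤ x * (ε / 8) := by
      calc ((x / J : ℕ) : ℝ) ≤ (x : ℝ) / J := Nat.cast_div_le
        _ = x * (1 / J) := by ring
        _ ≤ x * (ε / 8) := by gcongr
    set π : ℝ := ((Nat.primesLE x).card : ℝ) with hπ
    have hπ0 : 0 ≤ π := Nat.cast_nonneg _
    calc π ^ 2 * (Real.log x - (2 * Real.log (J + 2) + 1))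
        ≤ π ^ 2 * (Real.log (((x / J : ℕ) : ℝ) + 2) - Real.log (J + 2) - 1) := by
          apply mul_le_mul_of_nonneg_left _ (by positivity)
          linarith
      _ ≤ ((x : ℝ) + (x / J : ℕ)) * (π / ((J : ℝ) + 2) + Phi (Nat.primesLE x)) := h1
      _ ≤ ((x : ℝ) * (1 + ε / 8)) * ((1 - 7 * ε / 8) * π + C0) := by
          have h6 : π / ((J : ℝ) + 2) + Phi (Nat.primesLE x) ≤ (1 - 7 * ε / 8) * π + C0 := by
            have h7 := hPhi x
            have h8 : π / ((J : ℝ) + 2) = π * (1 / ((J : ℝ) + 2)) := by ring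
            rw [h8]
            nlinarith
          have h9 : (x : ℝ) + (x / J : ℕ) ≤ (x : ℝ) * (1 + ε / 8) := by linarith
          have h10 : 0 ≤ (1 - 7 * ε / 8) * π + C0 := by nlinarith
          calc ((x : ℝ) + (x / J : ℕ)) * (π / ((J : ℝ) + 2) + Phi (Nat.primesLE x))
              ≤ ((x : ℝ) + (x / J : ℕ)) * ((1 - 7 * ε / 8) * π + C0) := by gcongr
            _ ≤ ((x : ℝ) * (1 + ε / 8)) * ((1 - 7 * ε / 8) * π + C0) := by gcongr
  -- choose x large
  set D : ℝ := 2 * Real.log (J + 2) + 1 with hD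
  have hDpos : 0 < D := by
    have : 0 ≤ Real.log ((J : ℝ) + 2) := Real.log_nonneg (by linarith)
    rw [hD]; linarith
  have hπlim : Tendsto (fun x : ℕ => ((Nat.primesLE x).card : ℝ)) atTop atTop := by
    have h1 : Tendsto (fun x : ℕ => (Nat.primeCounting x : ℝ)) atTop atTop :=
      tendsto_natCast_atTop_atTop.comp Nat.tendsto_primeCounting
    refine h1.congr ?_
    intro x
    rw [← Nat.primesLE_card_eq_primeCounting]
  have hloglim : Tendsto (fun n : ℕ => Real.log n) atTop atTop :=
    Real.tendsto_log_atTop.comp tendsto_natCast_atTop_atTop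
  have hev : ∀ᶠ x : ℕ in atTop, Chebyshev.theta x ≤ (1 - ε / 4) * x := by
    filter_upwards [hπlim.eventually (eventually_ge_atTop (8 * C0 / ε + 1)),
      hloglim.eventually (eventually_ge_atTop (D + 8 * D / ε)), eventually_ge_atTop (J * J + 1)]
      with x hx1 hx2 hx3
    have hxpos : 0 < x := by omega
    have hxR : (0 : ℝ) < x := by exact_mod_cast hxpos
    have h1 := hmain x hxpos (by omega)
    set π : ℝ := ((Nat.primesLE x).card : ℝ) with hπ
    have hC : C0 ≤ ε / 8 * π := by
      have : 8 * C0 / ε ≤ π := by linarith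
      rw [div_le_iff₀ hε] at this
      linarith
    have hπpos : 0 < π := by
      have : 0 ≤ 8 * C0 / ε := by positivity
      linarith
    have h2 : π * (Real.log x - D) ≤ x * (1 - 5 * ε / 8) := by
      have h3 : π ^ 2 * (Real.log x - D) ≤ ((x : ℝ) * (1 + ε / 8)) * ((1 - 6 * ε / 8) * π) := by
        refine le_trans h1 ?_
        gcongr
        linarith
      have h4 : π * (π * (Real.log x - D)) ≤ π * (x * ((1 + ε / 8) * (1 - 6 * ε / 8))) := by
        nlinarith
      have h5 := le_of_mul_le_mul_left h4 hπpos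
      have h6 : (1 + ε / 8) * (1 - 6 * ε / 8) ≤ 1 - 5 * ε / 8 := by nlinarith
      calc π * (Real.log x - D) ≤ x * ((1 + ε / 8) * (1 - 6 * ε / 8)) := h5
        _ ≤ x * (1 - 5 * ε / 8) := by gcongr
    -- π D ≤ (ε/8) x
    have h7 : π * D ≤ ε / 8 * x := by
      have h8 : π * (8 * D / ε) ≤ x := by
        calc π * (8 * D / ε) ≤ π * (Real.log x - D) := by
              apply mul_le_mul_of_nonneg_left _ hπpos.le
              linarith
          _ ≤ x * (1 - 5 * ε / 8) := h2
          _ ≤ x := by nlinarith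
      have h9 : π * (8 * D / ε) = π * D * (8 / ε) := by ring
      rw [h9] at h8
      have h10 : π * D ≤ x / (8 / ε) := by
        rw [le_div_iff₀ (by positivity)]; exact h8
      calc π * D ≤ x / (8 / ε) := h10
        _ = ε / 8 * x := by field_simp
    have h11 := Chebyshev.theta_le_pi_mul_log x
    rw [← Nat.primesLE_card_eq_primeCounting, ← hπ] at h11
    nlinarith
  rw [eventually_atTop] at hev
  obtain ⟨x0, hx0⟩ := hev
  exact Mertens.not_theta_le (ε / 4) (by positivity) x0 hx0

theorem main : (2 : EReal) ≤ atTop.limsup (fun n : ℕ => (N5dc7309f.f n : EReal)) := by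
  apply le_of_forall_lt
  intro c hc
  -- c < 2: find a real ε with c ≤ 2 - ε
  obtain ⟨r, hr1, hr2⟩ := EReal.lt_iff_exists_real_btwn.1 hc
  refine lt_of_lt_of_le hr1 ?_
  apply le_limsup_of_frequently_le'
  have hr : 0 < 2 - r := by
    have : r < 2 := EReal.coe_lt_coe_iff.1 (show (r : EReal) < ((2 : ℝ) : EReal) from hr2)
    linarith
  refine (frequently (2 - r) hr).mono ?_
  intro n hn
  have : r < N5dc7309f.f n := by linarith
  exact_mod_cast this.le

end Pool.Agent.H8.LimsupTwo
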